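import Mathlib
import Pool.Agent.helper10.PT.D.Act
import Pool.Agent.helper95.Shat
import Pool.Agent.helper95.Density

set_option autoImplicit false

/-!
# Phase B of the `p`-towers: definitions for the Tate-Shafarevich group

`K` is a number field, `Ω` its algebraic closure, `v` a finite place; `ClV v` is the algebraic
closure of the completion of `K` at `v`.  `Ω` contains `kk = ℚ(ω)`, but `K` need not contain `ω`.
`Fkk K Ω` is the group of the automorphisms of `Ω / K` which fix `kk`.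
-/

namespace Pool.Agent.helper77.PB

open NumberField IsDedekindDomain QuadraticAlgebra Pool.Agent.helper10.PT
open Pool.Agent.helper77.BSD Pool.Agent.helper77.Tow

section

variable {K : Type} [Field K] [NumberField K]

/-- the algebraic closure of the completion -/
abbrev ClV (v : HeightOneSpectrum (𝓞 K)) : Type := AlgebraicClosure (v.adicCompletion K)

instance charZero_completion (v : HeightOneSpectrum (𝓞 K)) : CharZero (v.adicCompletion K) :=
  charZero_of_injective_algebraMap (algebraMap K (v.adicCompletion K)).injective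

instance charZero_ClV (v : HeightOneSpectrum (𝓞 K)) : CharZero (ClV v) :=
  charZero_of_injective_algebraMap (algebraMap (v.adicCompletion K) (ClV v)).injective

end

section

variable (K Ω : Type) [Field K] [Field Ω] [CharZero Ω] [Algebra K Ω] [Algebra kk Ω]

/-- the automorphisms of `Ω / K` which fix `kk = ℚ(ω)` -/
def Fkk : Subgroup (Ω ≃ₐ[K] Ω) where
  carrier := {t | ∀ x : kk, t (algebraMap kk Ω x) = algebraMap kk Ω x}
  one_mem' := fun _ => rfl
  mul_mem' := by
    intro g h hg hh x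
    rw [AlgEquiv.mul_apply, hh x, hg x]
  inv_mem' := by
    intro g hg x
    apply g.injective
    rw [hg x]
    exact g.apply_symm_apply _

variable {K Ω}

lemma mem_Fkk {t : Ω ≃ₐ[K] Ω} :
    t ∈ Fkk K Ω ↔ ∀ x : kk, t (algebraMap kk Ω x) = algebraMap kk Ω x := Iff.rfl

/-- the action of an automorphism on points -/
noncomputable def pa (t : Ω ≃ₐ[K] Ω) : Pt Ω →+ Pt Ω := ptMap ((t : Ω ≃+* Ω) : Ω →+* Ω)

/-- `D` is trivial at the finite places, on the automorphisms in `H` -/
def LTP [NumberField K] (H : Set (Ω ≃ₐ[K] Ω)) (D : (Ω ≃ₐ[K] Ω) → Pt Ω) : Prop :=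
  ∀ (v : HeightOneSpectrum (𝓞 K)) (j : Ω →ₐ[K] ClV v), ∃ Q : Pt (ClV v),
    ∀ (s : ClV v ≃ₐ[v.adicCompletion K] ClV v) (t : Ω ≃ₐ[K] Ω), t ∈ H →
      (∀ x, s (j x) = j (t x)) →
      ptMap (j : Ω →+* ClV v) (D t) = pa s Q - Q

/-- `D` is a locally constant and locally trivial cocycle on the subgroup `H` -/
structure CocP [NumberField K] (H : Subgroup (Ω ≃ₐ[K] Ω)) (D : (Ω ≃ₐ[K] Ω) → Pt Ω) : Prop where
  coc : ∀ s ∈ H, ∀ t ∈ H, D (s * t) = D s + pa s (D t)
  fin : ∃ S : Finset Ω, ∀ s ∈ H, ∀ t ∈ H, (∀ x ∈ S, s x = t x) → D s = D t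
  lt : LTP (H : Set (Ω ≃ₐ[K] Ω)) D

/-- `D` is a coboundary on the subgroup `H` -/
def CobP (H : Subgroup (Ω ≃ₐ[K] Ω)) (D : (Ω ≃ₐ[K] Ω) → Pt Ω) : Prop :=
  ∃ P : Pt Ω, ∀ t ∈ H, D t = pa t P - P

end

end Pool.Agent.helper77.PB
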