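import Mathlib
import Pool.Agent.helper77.PB.Defs

set_option autoImplicit false

/-!
# PT-B-D2: a big Galois field

**Proof.**  `Ω = AlgebraicClosure K`.  Choose an embedding `i : F →ₐ[kk] Ω`.  Let `M` be the normal closure over
`ℚ` in `Ω` of the field generated by `ψ(L)`, `i(F)`, `S` (finite over `ℚ`; as an `IntermediateField ℚ Ω`, with
`M ≤ Ω`; `IntermediateField.normalClosure`, see `exists_big_field` in R/Fld.lean for the technique), `φ` the
inclusion; the algebra structures are the restrictions of the maps `kk → Ω`, `K → Ω`, `ψ`, `i`.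
`M / ℚ` is Galois, so `M / kk` and `M / K` are (`IsGalois.tower_top_of_isGalois ℚ`).
-/

namespace Pool.Agent.helper77.PB

open NumberField QuadraticAlgebra Pool.Agent.helper10.PT
open Pool.Agent.helper77.BSD Pool.Agent.helper77.Tow

namespace BigM

lemma exists_galois {Ω : Type} [Field Ω] [CharZero Ω] [Algebra.IsAlgebraic ℚ Ω] [IsAlgClosed Ω]
    {F₁ F₂ : Type} [Field F₁] [NumberField F₁] [Field F₂] [NumberField F₂]
    (f₁ : F₁ →+* Ω) (f₂ : F₂ →+* Ω) (S : Finset Ω) :
    ∃ E : IntermediateField ℚ Ω, FiniteDimensional ℚ E ∧ IsGalois ℚ E ∧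
      (∀ x, f₁ x ∈ E) ∧ (∀ x, f₂ x ∈ E) ∧ ∀ x ∈ S, x ∈ E := by
  have : IsAlgClosure ℚ Ω := ⟨inferInstance, inferInstance⟩
  have : Normal ℚ Ω := IsAlgClosure.normal ℚ Ω
  let g₁ : F₁ →ₐ[ℚ] Ω := f₁.toRatAlgHom
  let g₂ : F₂ →ₐ[ℚ] Ω := f₂.toRatAlgHom
  let A : IntermediateField ℚ Ω := IntermediateField.adjoin ℚ (S : Set Ω)
  have h1 : FiniteDimensional ℚ g₁.fieldRange :=
    (AlgEquiv.ofInjectiveField g₁).toLinearEquiv.finiteDimensional
  have h2 : FiniteDimensional ℚ g₂.fieldRange :=
    (AlgEquiv.ofInjectiveField g₂).toLinearEquiv.finiteDimensional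
  have h3 : FiniteDimensional ℚ A :=
    IntermediateField.finiteDimensional_adjoin fun x _ => Algebra.IsIntegral.isIntegral x
  let E₀ : IntermediateField ℚ Ω := g₁.fieldRange ⊔ g₂.fieldRange ⊔ A
  have h4 : FiniteDimensional ℚ (g₁.fieldRange ⊔ g₂.fieldRange : IntermediateField ℚ Ω) :=
    IntermediateField.finiteDimensional_sup _ _
  have h5 : FiniteDimensional ℚ E₀ := IntermediateField.finiteDimensional_sup _ _
  let E : IntermediateField ℚ Ω := IntermediateField.normalClosure ℚ E₀ Ω
  have hle : E₀ ≤ E := IntermediateField.le_normalClosure E₀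
  have h6 : FiniteDimensional ℚ E := normalClosure.is_finiteDimensional ℚ E₀ Ω
  have h7 : Normal ℚ E := normalClosure.normal ℚ E₀ Ω
  refine ⟨E, h6, ⟨⟩, fun x => hle ?_, fun x => hle ?_, fun x hx => hle ?_⟩
  · exact (le_sup_left.trans le_sup_left : g₁.fieldRange ≤ E₀) ⟨x, rfl⟩
  · exact (le_sup_right.trans le_sup_left : g₂.fieldRange ≤ E₀) ⟨x, rfl⟩
  · exact (le_sup_right : A ≤ E₀) (IntermediateField.subset_adjoin _ _ hx)

lemma numberField {Ω : Type} [Field Ω] [CharZero Ω] {E : IntermediateField ℚ Ω}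
    (h : FiniteDimensional ℚ E) : NumberField E where
  to_charZero := inferInstance
  to_finiteDimensional := h

end BigM

theorem exists_bigM {K L F : Type} [Field K] [NumberField K] [Field L] [NumberField L]
    [Field F] [NumberField F] [Algebra K L] [Algebra kk L] [Algebra kk F]
    [Algebra kk (AlgebraicClosure K)] (ψ : L →ₐ[K] AlgebraicClosure K)
    (hψ : ∀ x : kk, ψ (algebraMap kk L x) = algebraMap kk (AlgebraicClosure K) x)
    (S : Finset (AlgebraicClosure K)) :
    ∃ (M : Type) (_ : Field M) (_ : NumberField M) (_ : Algebra kk M) (_ : Algebra K M)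
      (_ : Algebra L M) (_ : Algebra F M) (_ : IsScalarTower kk L M) (_ : IsScalarTower kk F M)
      (_ : IsScalarTower K L M) (φ : M →ₐ[K] AlgebraicClosure K), IsGalois kk M ∧
      IsGalois K M ∧ (∀ x : L, φ (algebraMap L M x) = ψ x) ∧
      (∀ x : kk, φ (algebraMap kk M x) = algebraMap kk (AlgebraicClosure K) x) ∧
      ∀ x ∈ S, ∃ y, φ y = x := by
  have hf : FiniteDimensional kk F := Module.Finite.of_restrictScalars_finite ℚ kk F
  have hK : Algebra.IsAlgebraic ℚ K := inferInstance
  have hΩ : Algebra.IsAlgebraic ℚ (AlgebraicClosure K) :=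
    Algebra.IsAlgebraic.trans ℚ K (AlgebraicClosure K)
  let i : F →ₐ[kk] AlgebraicClosure K := IsAlgClosed.lift
  obtain ⟨E, hE1, hE2, hE3, hE4, hE5⟩ :=
    BigM.exists_galois (ψ : L →+* AlgebraicClosure K) (i : F →+* AlgebraicClosure K) S
  have hnf : NumberField E := BigM.numberField hE1
  let aL : L →+* E := (ψ : L →+* AlgebraicClosure K).codRestrict E.toSubfield hE3
  let aF : F →+* E := (i : F →+* AlgebraicClosure K).codRestrict E.toSubfield hE4
  let ak : kk →+* E := aL.comp (algebraMap kk L)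
  let aK : K →+* E := aL.comp (algebraMap K L)
  let i1 : Algebra kk E := ak.toAlgebra
  let i2 : Algebra K E := aK.toAlgebra
  let i3 : Algebra L E := aL.toAlgebra
  let i4 : Algebra F E := aF.toAlgebra
  have t1 : IsScalarTower kk L E := IsScalarTower.of_algebraMap_eq fun _ => rfl
  have t2 : IsScalarTower kk F E := IsScalarTower.of_algebraMap_eq fun x => by
    apply Subtype.ext
    change ψ (algebraMap kk L x) = i (algebraMap kk F x)
    rw [hψ, i.commutes]
  have t3 : IsScalarTower K L E := IsScalarTower.of_algebraMap_eq fun _ => rfl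
  let φ : E →ₐ[K] AlgebraicClosure K :=
    { toRingHom := (algebraMap E (AlgebraicClosure K))
      commutes' := fun x => ψ.commutes x }
  refine ⟨E, inferInstance, hnf, i1, i2, i3, i4, t1, t2, t3, φ, ?_, ?_, fun _ => rfl,
    fun x => hψ x, fun x hx => ⟨⟨x, hE5 x hx⟩, rfl⟩⟩
  · exact IsGalois.tower_top_of_isGalois ℚ kk E
  · exact IsGalois.tower_top_of_isGalois ℚ K E

end Pool.Agent.helper77.PB
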