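import Mathlib
import Pool.Agent.helper77.PB.Defs

set_option autoImplicit false

/-!
# PT-B-L1: isometries of `N` lift to the algebraic closure of the completion

**Proof.**  Let `D ⊆ Gal(Ω / K)` be the group of the `t'` for which there is
`s : ClV v ≃ₐ[K_v] ClV v` with `s ∘ j = j ∘ t'` (each `s` has such a `t'`: `helper95.exists_restrict`).
`H = Gal(Ω / N) ⊔ D` is open, so closed; its fixed field is contained in `N` and is fixed by `D`.
For `x` in the fixed field all `s` fix `j x`, so `j x = algebraMap k` for some `k ∈ K_v`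
(`helper95.exists_of_fixed`).  The given `t` fixes `x`: for `δ > 0` there is `c ∈ K` with `‖c - k‖ < δ`
(`helper95.exists_approx`), so
`cAbs (j (t x) - j x) ≤ max (cAbs (j (t (x - c)))) (cAbs (j (x - c)))` and both are
`cAbs (j (x - c)) < δ`; so `t x = x`.  Hence `t` is in `H` by infinite Galois theory, and `Gal(Ω / N)` is
normal: `t = g d` with `g` trivial on `N` and `d ∈ D`.
-/

namespace Pool.Agent.helper77.PB

open NumberField IsDedekindDomain IntermediateField Pool.Agent.helper10.PT Pool.Agent.helper95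

/-- the automorphisms which come from the algebraic closure of the completion -/
def decGrp {K : Type} [Field K] [NumberField K] (v : HeightOneSpectrum (𝓞 K))
    {Ω : Type} [Field Ω] [Algebra K Ω] (j : Ω →ₐ[K] ClV v) : Subgroup (Ω ≃ₐ[K] Ω) where
  carrier := {t | ∃ s : ClV v ≃ₐ[v.adicCompletion K] ClV v, ∀ x, s (j x) = j (t x)}
  one_mem' := ⟨1, fun _ => rfl⟩
  mul_mem' := by
    rintro g h ⟨s, hs⟩ ⟨s', hs'⟩
    refine ⟨s * s', fun x => ?_⟩
    rw [AlgEquiv.mul_apply, AlgEquiv.mul_apply, hs', hs]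
  inv_mem' := by
    rintro g ⟨s, hs⟩
    refine ⟨s⁻¹, fun x => ?_⟩
    apply s.injective
    rw [hs]
    exact (s.apply_symm_apply _).trans (congrArg j (g.apply_symm_apply x).symm)

theorem exists_lift_local {K : Type} [Field K] [NumberField K] (v : HeightOneSpectrum (𝓞 K))
    {Ω : Type} [Field Ω] [CharZero Ω] [Algebra K Ω] [IsAlgClosed Ω] [Algebra.IsAlgebraic K Ω]
    (j : Ω →ₐ[K] ClV v) (N : IntermediateField K Ω) [FiniteDimensional K N]
    (hN : ∀ (σ : Ω ≃ₐ[K] Ω), ∀ x ∈ N, σ x ∈ N) (t : Ω ≃ₐ[K] Ω)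
    (ht : ∀ x ∈ N, cAbs v (j (t x)) = cAbs v (j x)) :
    ∃ s : ClV v ≃ₐ[v.adicCompletion K] ClV v, ∀ x ∈ N, s (j x) = j (t x) := by
  have hn : Normal K Ω := normal_iff.mpr fun x =>
    ⟨Algebra.IsIntegral.isIntegral x, IsAlgClosed.splits _⟩
  have hgal : IsGalois K Ω := {}
  let H : Subgroup (Ω ≃ₐ[K] Ω) := N.fixingSubgroup ⊔ decGrp v j
  have hopen : IsOpen (H : Set (Ω ≃ₐ[K] Ω)) :=
    Subgroup.isOpen_mono (le_sup_left : N.fixingSubgroup ≤ H) (fixingSubgroup_isOpen N)
  have hclosed : IsClosed (H : Set (Ω ≃ₐ[K] Ω)) := Subgroup.isClosed_of_isOpen H hopen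
  have hfix : (fixedField H).fixingSubgroup = H :=
    InfiniteGalois.fixingSubgroup_fixedField ⟨H, hclosed⟩
  have hnormal : N.fixingSubgroup.Normal := by
    refine ⟨fun g hg σ => ?_⟩
    rw [IntermediateField.mem_fixingSubgroup_iff] at hg ⊢
    intro x hx
    rw [AlgEquiv.mul_apply, AlgEquiv.mul_apply, hg _ (hN σ⁻¹ x hx)]
    exact σ.apply_symm_apply x
  have htH : t ∈ H := by
    rw [← hfix, IntermediateField.mem_fixingSubgroup_iff]
    intro x hx
    have hxN : x ∈ N := by
      rw [← InfiniteGalois.fixedField_fixingSubgroup N]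
      exact fun g => hx ⟨g.1, (le_sup_left : N.fixingSubgroup ≤ H) g.2⟩
    obtain ⟨k, hk⟩ := exists_of_fixed v (j x) (by
      intro s
      obtain ⟨t', ht'⟩ := exists_restrict (S := v.adicCompletion K) j s
      rw [ht']
      exact congrArg j (hx ⟨t', (le_sup_right : decGrp v j ≤ H) ⟨s, ht'⟩⟩))
    have key : ∀ δ : ℝ, 0 < δ → cAbs v (j (t x) - j x) < δ := by
      intro δ hδ
      obtain ⟨c, hc⟩ := exists_approx v k hδ
      have h1 : cAbs v (j (x - algebraMap K Ω c)) < δ := by
        rw [map_sub, AlgHom.commutes, ← hk,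
          IsScalarTower.algebraMap_apply K (v.adicCompletion K) (ClV v), ← map_sub,
          cAbs_algebraMap, norm_sub_rev]
        exact hc
      have h2 := ht (x - algebraMap K Ω c) (N.sub_mem hxN (N.algebraMap_mem c))
      have h3 : j (t x) - j x = j (t (x - algebraMap K Ω c)) + j (algebraMap K Ω c - x) := by
        rw [map_sub t, AlgEquiv.commutes, map_sub, map_sub]
        ring
      have h4 : cAbs v (j (algebraMap K Ω c - x)) = cAbs v (j (x - algebraMap K Ω c)) := by
        rw [← neg_sub x, map_neg, AbsoluteValue.map_neg]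
      rw [h3]
      refine (cAbs_nonarch v _ _).trans_lt (max_lt ?_ ?_)
      · rw [h2]; exact h1
      · rw [h4]; exact h1
    have h0 : cAbs v (j (t x) - j x) = 0 := by
      by_contra hne
      have hpos : 0 < cAbs v (j (t x) - j x) := lt_of_le_of_ne ((cAbs v).nonneg _) (Ne.symm hne)
      exact lt_irrefl _ (key _ hpos)
    have h5 : j (t x) - j x = 0 := (cAbs v).eq_zero.mp h0
    exact j.toRingHom.injective (sub_eq_zero.mp h5)
  obtain ⟨g, hg, d, hd, rfl⟩ := Subgroup.mem_sup_of_normal_left.mp htH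
  obtain ⟨s, hs⟩ := hd
  refine ⟨s, fun x hx => ?_⟩
  rw [hs, AlgEquiv.mul_apply, (IntermediateField.mem_fixingSubgroup_iff _ _).mp hg (d x) (hN d x hx)]

end Pool.Agent.helper77.PB
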