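import Mathlib
import Pool.Agent.helper10.PT.K.IneB1

set_option autoImplicit false

/-!
# PT-B-L2: surjectivity on the inertia groups

**Proof.**  Put `I(N/K) = {h : N ≃ₐ[K] N | InI h w}` etc.  `vl_card_inertia` for `N / K`, `N / M`, `M / K`
(with `dn K w = dn K (dn M w)` and one `x ∈ Kˣ` with `vl (dn K w) x ≠ 0`) gives
`|I(N/K)| = |I(N/M)| · |I(M/K)|`.  Restriction (`AlgEquiv.restrictNormal`) maps `I(N/K)` to `I(M/K)`
(`d6_inI_restr` in PT/D/InL.lean is this statement; copy its proof) with kernel `I(N/M)`
(`AlgEquiv.restrictScalars`; an element of `Gal(N/K)` which fixes `M` is `K`-linear restriction of an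
element of `Gal(N/M)`).  So the image has `|I(M/K)|` elements, hence it is everything
(`IneB3.lean` shows how to make `I` a subgroup; or count fibres).
-/

namespace Pool.Agent.helper77.PB

open NumberField IsDedekindDomain Pool.Agent.helper10.PT
open Pool.Agent.helper77.BSD Pool.Agent.helper77.Tow Pool.Agent.helper76.T3
open Pool.Agent.helper40.T3 (al dn)

section aux

variable {K N : Type} [Field K] [NumberField K] [Field N] [NumberField N] [Algebra K N]

/-- the inertia group of `w` in `Gal(N/K)` -/
private def h80L2_I (K : Type) [Field K] [Algebra K N] (w : HeightOneSpectrum (𝓞 N)) :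
    Subgroup (N ≃ₐ[K] N) where
  carrier := {g | InI (g : N ≃+* N) w}
  mul_mem' := by
    intro g h hg hh
    exact InI.mul (g := (g : N ≃+* N)) (h := (h : N ≃+* N)) hg hh
  one_mem' := InI.one w
  inv_mem' := by
    intro g hg
    exact InI.inv (g := (g : N ≃+* N)) hg

private lemma h80L2_restr {M : Type} [Field M] [NumberField M] [Algebra M N]
    {w : HeightOneSpectrum (𝓞 N)} {g : N ≃+* N} (hg : InI g w) {γ : M ≃+* M}
    (hγ : ∀ x : M, g (algebraMap M N x) = algebraMap M N (γ x)) : InI γ (dn M w) := by
  intro x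
  have h1 := hg (algebraMap (𝓞 M) (𝓞 N) x)
  rw [helper40.T3.dn_asIdeal, Ideal.under_def, Ideal.mem_comap, map_sub]
  have h2 : RingOfIntegers.mapRingEquiv g (algebraMap (𝓞 M) (𝓞 N) x) =
      algebraMap (𝓞 M) (𝓞 N) (RingOfIntegers.mapRingEquiv γ x) := by
    apply RingOfIntegers.ext
    exact hγ x
  rw [h2] at h1
  exact h1

end aux

theorem exists_lift_inertia {K M N : Type} [Field K] [NumberField K] [Field M] [NumberField M]
    [Field N] [NumberField N] [Algebra K M] [Algebra K N] [Algebra M N] [IsScalarTower K M N]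
    [IsGalois K M] [IsGalois K N] (w : HeightOneSpectrum (𝓞 N)) (g : M ≃ₐ[K] M)
    (hg : InI (g : M ≃+* M) (dn M w)) :
    ∃ h : N ≃ₐ[K] N, InI (h : N ≃+* N) w ∧ ∀ x : M, h (algebraMap M N x) = algebraMap M N (g x) := by
  have : IsGalois M N := IsGalois.tower_top_of_isGalois K M N
  have hcomm : ∀ (h : N ≃ₐ[K] N) (x : M),
      h (algebraMap M N x) = algebraMap M N (AlgEquiv.restrictNormalHom M h x) := by
    intro h x
    exact (AlgEquiv.restrictNormal_commutes h M x).symm
  -- the restriction map
  let φ : h80L2_I K w →* h80L2_I K (dn M w) :=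
    MonoidHom.codRestrict ((AlgEquiv.restrictNormalHom M).comp (h80L2_I K w).subtype)
      (h80L2_I K (dn M w)) (by
        rintro ⟨h, hh⟩
        exact h80L2_restr (g := (h : N ≃+* N)) hh (fun x => hcomm h x))
  -- the kernel
  have hker : Nat.card φ.ker = Nat.card {h : N ≃ₐ[M] N // InI (h : N ≃+* N) w} := by
    symm
    refine Nat.card_congr (Equiv.ofBijective
      (fun h => ⟨⟨h.1.restrictScalars K, h.2⟩, ?_⟩) ⟨?_, ?_⟩)
    · rw [MonoidHom.mem_ker]
      apply Subtype.ext
      apply AlgEquiv.ext
      intro x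
      apply (algebraMap M N).injective
      change algebraMap M N (AlgEquiv.restrictNormalHom M (h.1.restrictScalars K) x) =
        algebraMap M N x
      rw [← hcomm]
      exact h.1.commutes x
    · intro g h hgh
      apply Subtype.ext
      apply AlgEquiv.ext
      intro y
      have := congrArg (fun t : φ.ker => (t.1.1 : N ≃ₐ[K] N) y) hgh
      exact this
    · rintro ⟨⟨h, hh⟩, hk⟩
      refine ⟨⟨AlgEquiv.ofRingEquiv (f := (h : N ≃+* N)) ?_, hh⟩, ?_⟩
      · intro y
        rw [MonoidHom.mem_ker] at hk
        have h1 : AlgEquiv.restrictNormalHom M h = 1 := congrArg Subtype.val hk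
        change h (algebraMap M N y) = algebraMap M N y
        rw [hcomm, h1]
        rfl
      · apply Subtype.ext
        apply Subtype.ext
        apply AlgEquiv.ext
        intro y
        rfl
  -- the cardinalities
  have hcard : Nat.card (h80L2_I K w) =
      Nat.card {h : N ≃ₐ[M] N // InI (h : N ≃+* N) w} * Nat.card (h80L2_I K (dn M w)) := by
    have hdn : dn K (dn M w) = dn K w := by
      apply HeightOneSpectrum.ext
      rw [helper40.T3.dn_asIdeal, helper40.T3.dn_asIdeal, helper40.T3.dn_asIdeal]
      exact Ideal.under_under _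
    obtain ⟨x, hx1⟩ := exists_vl_eq_one (dn K w)
    have hx : vl (dn K w) x ≠ 0 := by
      rw [hx1]
      exact one_ne_zero
    have e : al N x = al N (al M x) := by
      ext
      exact IsScalarTower.algebraMap_apply K M N (x : K)
    have h1 := vl_card_inertia (F := K) (M := N) w x
    have h2 := vl_card_inertia (F := M) (M := N) w (al M x)
    have h3 := vl_card_inertia (F := K) (M := M) (dn M w) x
    rw [e, h2, h3, hdn, ← mul_assoc] at h1
    have h4 := mul_right_cancel₀ hx h1
    exact_mod_cast h4.symm
  -- surjectivity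
  have hfin : Finite (h80L2_I K (dn M w)) := inferInstance
  have hfin2 : Finite (h80L2_I K w) := inferInstance
  have hrange : Nat.card φ.range = Nat.card (h80L2_I K (dn M w)) := by
    have h1 := φ.ker.card_mul_index
    rw [Subgroup.index_ker, hker, hcard] at h1
    have h2 : 0 < Nat.card {h : N ≃ₐ[M] N // InI (h : N ≃+* N) w} := by
      rw [← hker]
      exact Nat.card_pos
    exact Nat.eq_of_mul_eq_mul_left h2 h1
  have hsurj : φ.range = ⊤ := Subgroup.eq_top_of_card_eq _ hrange
  have hmem : (⟨g, hg⟩ : h80L2_I K (dn M w)) ∈ φ.range := by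
    rw [hsurj]
    exact Subgroup.mem_top _
  obtain ⟨⟨h, hh⟩, he⟩ := hmem
  refine ⟨h, hh, fun x => ?_⟩
  have h1 : AlgEquiv.restrictNormalHom M h = g := congrArg Subtype.val he
  rw [hcomm, h1]

end Pool.Agent.helper77.PB
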