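import Mathlib
import Pool.Agent.helper77.PB.Defs

set_option autoImplicit false

/-!
# PT-B-L3: algebraic numbers are dense in the algebraic closure of the completion

**Proof.**  Let `f = T ^ n + ∑ a_i T ^ i` be the minimal polynomial of `X` over `K_v`.  For `ε > 0` choose
`b_i ∈ K` with `‖b_i - a_i‖ < ε` (`helper95.exists_approx`) and put `g = T ^ n + ∑ b_i T ^ i ∈ K[T]`, which
splits over `Ω`: `g = ∏ (T - y_i)`, `y_i ∈ Ω`.  Then `∏ (X - j y_i) = g(X) = g(X) - f(X)` has absolute
value `≤ max_i ‖b_i - a_i‖ cAbs X ^ i ≤ ε max(1, cAbs X) ^ n`, which is `< δ ^ n` for a suitable `ε`.  So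
`cAbs (X - j y_i) < δ` for some `i` (if all were `≥ δ` the product would be `≥ δ ^ n`; `n ≥ 1`).
-/

namespace Pool.Agent.helper77.PB

open NumberField IsDedekindDomain Pool.Agent.helper10.PT Pool.Agent.helper95

theorem exists_near {K : Type} [Field K] [NumberField K] (v : HeightOneSpectrum (𝓞 K))
    {Ω : Type} [Field Ω] [CharZero Ω] [Algebra K Ω] [IsAlgClosed Ω] [Algebra.IsAlgebraic K Ω]
    (j : Ω →ₐ[K] ClV v) (X : ClV v) {δ : ℝ} (hδ : 0 < δ) : ∃ y : Ω, cAbs v (j y - X) < δ := by
  classical
  let Kv := v.adicCompletion K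
  let L := ClV v
  have hint : IsIntegral Kv X := Algebra.IsIntegral.isIntegral X
  set f : Polynomial Kv := minpoly Kv X with hf
  have hmon : f.Monic := minpoly.monic hint
  set n : ℕ := f.natDegree with hn
  have hn0 : 0 < n := minpoly.natDegree_pos hint
  set M : ℝ := max 1 (cAbs v X) with hM
  have hM1 : 1 ≤ M := le_max_left _ _
  have hMX : cAbs v X ≤ M := le_max_right _ _
  have hMn : 0 < M ^ n := pow_pos (by linarith) n
  set ε : ℝ := δ ^ n / ((n + 1) * M ^ n) with hε
  have hε0 : 0 < ε := div_pos (pow_pos hδ n) (mul_pos (by positivity) hMn)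
  choose b hb using fun i : ℕ => exists_approx v (f.coeff i) hε0
  -- the approximating polynomial
  let g : Polynomial K := Polynomial.X ^ n + ∑ i ∈ Finset.range n, Polynomial.C (b i) * Polynomial.X ^ i
  have hdeg : (∑ i ∈ Finset.range n, Polynomial.C (b i) * Polynomial.X ^ i : Polynomial K).degree < n := by
    rw [← Polynomial.mem_degreeLT]
    refine Submodule.sum_mem _ fun i hi => ?_
    rw [Polynomial.mem_degreeLT]
    refine lt_of_le_of_lt (Polynomial.degree_C_mul_X_pow_le i (b i)) ?_
    exact_mod_cast Finset.mem_range.mp hi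
  have hgm : g.Monic := Polynomial.monic_X_pow_add hdeg
  have hgn : g.natDegree = n := by
    have h1 : g.degree = n := by
      have : (Polynomial.X ^ n : Polynomial K).degree = n := Polynomial.degree_X_pow n
      rw [show g = Polynomial.X ^ n + ∑ i ∈ Finset.range n, Polynomial.C (b i) * Polynomial.X ^ i from rfl,
        Polynomial.degree_add_eq_left_of_degree_lt (by rw [this]; exact hdeg), this]
    exact Polynomial.natDegree_eq_of_degree_eq_some h1
  -- its value at `X`
  have hfX : Polynomial.aeval X f = 0 := minpoly.aeval Kv X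
  have hfsum : Polynomial.aeval X f = X ^ n + ∑ i ∈ Finset.range n, algebraMap Kv L (f.coeff i) * X ^ i := by
    rw [Polynomial.aeval_eq_sum_range, ← hn, Finset.sum_range_succ, add_comm]
    congr 1
    · rw [hn, hmon.coeff_natDegree, one_smul]
    · exact Finset.sum_congr rfl fun i _ => by rw [Algebra.smul_def]
  have hgX : Polynomial.aeval X g = ∑ i ∈ Finset.range n,
      algebraMap Kv L (algebraMap K Kv (b i) - f.coeff i) * X ^ i := by
    have h1 : Polynomial.aeval X g = X ^ n + ∑ i ∈ Finset.range n, algebraMap Kv L (algebraMap K Kv (b i)) * X ^ i := by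
      simp only [g, map_add, map_pow, Polynomial.aeval_X, map_sum, map_mul, Polynomial.aeval_C]
      congr 1
    rw [h1, ← sub_zero (X ^ n + _), ← hfX, hfsum, add_sub_add_left_eq_sub, ← Finset.sum_sub_distrib]
    exact Finset.sum_congr rfl fun i _ => by rw [map_sub, sub_mul]
  have hgle : cAbs v (Polynomial.aeval X g) < δ ^ n := by
    rw [hgX]
    calc cAbs v (∑ i ∈ Finset.range n, algebraMap Kv L (algebraMap K Kv (b i) - f.coeff i) * X ^ i)
        ≤ ∑ i ∈ Finset.range n, cAbs v (algebraMap Kv L (algebraMap K Kv (b i) - f.coeff i) * X ^ i) :=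
          (cAbs v).sum_le _ _
      _ ≤ ∑ _i ∈ Finset.range n, ε * M ^ n := by
          refine Finset.sum_le_sum fun i hi => ?_
          rw [map_mul, map_pow, cAbs_algebraMap]
          refine mul_le_mul (hb i).le ?_ (pow_nonneg ((cAbs v).nonneg _) _) hε0.le
          calc cAbs v X ^ i ≤ M ^ i := pow_le_pow_left₀ ((cAbs v).nonneg _) hMX i
            _ ≤ M ^ n := pow_le_pow_right₀ hM1 (Finset.mem_range.mp hi).le
      _ = n * (ε * M ^ n) := by rw [Finset.sum_const, Finset.card_range, nsmul_eq_mul]
      _ < (n + 1) * (ε * M ^ n) := by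
          have : 0 < ε * M ^ n := mul_pos hε0 hMn
          nlinarith
      _ = δ ^ n := by
          rw [hε]; field_simp
  -- its roots
  have hspl : (g.map (algebraMap K Ω)).Splits := IsAlgClosed.splits _
  have hroots : g.map (algebraMap K Ω) = ((g.map (algebraMap K Ω)).roots.map
      fun a => Polynomial.X - Polynomial.C a).prod :=
    hspl.eq_prod_roots_of_monic (hgm.map _)
  have hcard : (g.map (algebraMap K Ω)).roots.card = n := by
    rw [← hspl.natDegree_eq_card_roots, Polynomial.natDegree_map, hgn]
  have hval : Polynomial.aeval X g = ((g.map (algebraMap K Ω)).roots.map fun a => X - j a).prod := by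
    have h1 : Polynomial.aeval X g = Polynomial.eval₂ (j : Ω →+* L) X (g.map (algebraMap K Ω)) := by
      rw [Polynomial.eval₂_map, Polynomial.aeval_def]
      congr 1
      ext x
      exact (j.commutes x).symm
    rw [h1]
    conv_lhs => rw [hroots]
    rw [Polynomial.eval₂_multiset_prod, Multiset.map_map]
    congr 1
    refine Multiset.map_congr rfl fun a _ => ?_
    simp
  by_contra hcon
  push Not at hcon
  have hge : δ ^ n ≤ cAbs v (Polynomial.aeval X g) := by
    rw [hval, ← hcard]
    generalize (g.map (algebraMap K Ω)).roots = s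
    induction s using Multiset.induction_on with
    | empty => simp
    | cons a s ih =>
      rw [Multiset.card_cons, pow_succ', Multiset.map_cons, Multiset.prod_cons, map_mul]
      refine mul_le_mul ?_ ih (pow_nonneg hδ.le _) ((cAbs v).nonneg _)
      rw [AbsoluteValue.map_sub]
      exact hcon a
  exact absurd hgle (not_lt.mpr hge)

end Pool.Agent.helper77.PB
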