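import Mathlib
import Pool.Agent.helper77.PB.Defs
import Pool.Agent.helper10.PT.D.Red

set_option autoImplicit false

/-!
# PT-B-L4: automorphisms which are trivial modulo the maximal ideal fix division points

**Proof.**  Same as `fixed_of_inI` in PT/D/Red.lean, with the valuation of `ClV v` given by `cAbs v` (a
`Valuation (ClV v) NNReal`, built from `cAbs v` and `cAbs_nonarch v`; `Valuation` lemmas then are
`InN`, `sub_InN`, `InN.sub`, `tor_InN`, `not_InN_iff`, `v_Y_le`).  `s` preserves it: `cAbs_equiv`.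
If `Q` is in `InN` (`Q = 0` or `cAbs Q.X > 1`) so is `s Q`; the difference is in `InN`.  Otherwise use `hQ1`
and `sub_InN`.  Then `tor_InN`.
-/

namespace Pool.Agent.helper77.PB

open NumberField IsDedekindDomain QuadraticAlgebra Pool.Agent.helper10.PT Pool.Agent.helper95
open Pool.Agent.helper77.BSD Pool.Agent.helper77.Tow

/-- the valuation of the algebraic closure of the completion -/
noncomputable def L4V {K : Type} [Field K] [NumberField K] (v : HeightOneSpectrum (𝓞 K)) :
    Valuation (ClV v) NNReal where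
  toFun x := (⟨cAbs v x, (cAbs v).nonneg x⟩ : NNReal)
  map_zero' := by
    apply NNReal.coe_injective
    exact (cAbs v).map_zero
  map_one' := by
    apply NNReal.coe_injective
    exact (cAbs v).map_one
  map_mul' x y := by
    apply NNReal.coe_injective
    exact (cAbs v).map_mul x y
  map_add_le_max' x y := by
    rcases le_max_iff.1 (cAbs_nonarch v x y) with h | h
    · exact le_max_of_le_left (NNReal.coe_le_coe.1 h)
    · exact le_max_of_le_right (NNReal.coe_le_coe.1 h)

lemma L4V_coe {K : Type} [Field K] [NumberField K] (v : HeightOneSpectrum (𝓞 K)) (x : ClV v) :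
    ((L4V v x : NNReal) : ℝ) = cAbs v x := rfl

lemma L4V_lt {K : Type} [Field K] [NumberField K] (v : HeightOneSpectrum (𝓞 K)) (x : ClV v) :
    L4V v x < 1 ↔ cAbs v x < 1 := by
  rw [← NNReal.coe_lt_coe, L4V_coe, NNReal.coe_one]

lemma L4V_le {K : Type} [Field K] [NumberField K] (v : HeightOneSpectrum (𝓞 K)) (x : ClV v) :
    L4V v x ≤ 1 ↔ cAbs v x ≤ 1 := by
  rw [← NNReal.coe_le_coe, L4V_coe, NNReal.coe_one]

lemma L4V_eq {K : Type} [Field K] [NumberField K] (v : HeightOneSpectrum (𝓞 K)) (x : ClV v) :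
    L4V v x = 1 ↔ cAbs v x = 1 := by
  rw [← NNReal.coe_inj, L4V_coe, NNReal.coe_one]

theorem fixed_ClV {K : Type} [Field K] [NumberField K] (v : HeightOneSpectrum (𝓞 K))
    [Algebra kk (ClV v)] (h3 : cAbs v 3 = 1) {a : EA} (ha : cAbs v (eK (ClV v) a) = 1)
    (s : ClV v ≃ₐ[v.adicCompletion K] ClV v) {Q : Pt (ClV v)}
    (hQ1 : cAbs v Q.X ≤ 1 → cAbs v (s Q.X - Q.X) < 1 ∧ cAbs v (s Q.Y - Q.Y) < 1)
    (hQ : a • (pa s Q - Q) = 0) : pa s Q = Q := by
  have hv : ∀ x : ClV v, L4V v (s x) = L4V v x := by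
    intro x
    apply NNReal.coe_injective
    rw [L4V_coe, L4V_coe]
    exact cAbs_equiv v s x
  have hX : (pa s Q).X = s Q.X := ptMap_X _ _
  have hY : (pa s Q).Y = s Q.Y := ptMap_Y _ _
  have h3' : L4V v (3 : ClV v) = 1 := (L4V_eq v _).2 h3
  have ha' : L4V v (eK (ClV v) a) = 1 := (L4V_eq v _).2 ha
  have key : InN (L4V v) (pa s Q - Q) := by
    by_cases hQN : InN (L4V v) Q
    · have h1 : InN (L4V v) (pa s Q) := by
        rcases hQN with h | h
        · left
          rw [h, map_zero]
        · right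
          rw [hX, hv]
          exact h
      exact h1.sub hQN
    · have hQ' := (not_InN_iff Q).1 hQN
      have hsQ : ¬ InN (L4V v) (pa s Q) := by
        rw [not_InN_iff]
        refine ⟨ptMap_ne_zero _ hQ'.1, ?_⟩
        rw [hX, hv]
        exact hQ'.2
      obtain ⟨h1, h2⟩ := hQ1 ((L4V_le v _).1 hQ'.2)
      refine sub_InN h3' hsQ hQN ?_ ?_
      · rw [hX]
        exact (L4V_lt v _).2 h1
      · rw [hY]
        exact (L4V_lt v _).2 h2
  exact sub_eq_zero.1 (tor_InN ha' key hQ)

end Pool.Agent.helper77.PB
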