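import Mathlib
import Pool.Agent.helper77.PB.L1
import Pool.Agent.helper77.PB.L2
import Pool.Agent.helper77.PB.L3
import Pool.Agent.helper77.PB.L4

set_option autoImplicit false

/-!
# PT-B-L5: locally trivial cocycles vanish on inertia

`Ω = AlgebraicClosure K`, `M / K` a finite Galois extension with an embedding `φ : M → Ω` over `K`, `D` a
cochain on `Fkk K Ω` which factors through `Gal(M / K)`, killed by `a`, locally trivial; `w` a prime of
`M` which does not contain `3` and `a`, `g` in its inertia group.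

**Proof.**
1. `v = dn K w`.  `A`: a nonarchimedean absolute value of `Ω` over `w` (`helper95.exists_abs_over` with the
   algebra `M → Ω` given by `φ`: `Compat (resAbs M A) w`, so `Compat (resAbs K A) v`).  `j₀ : Ω →ₐ[K] ClV v` any
   embedding, `B₀ = cAbs v ∘ j₀`, `Compat (resAbs K B₀) v` (as in `helper40.T3P.A3a`, `local_common3`).
   `helper95.bridge` for a finite set which generates `φ(M)` gives `g₁` and an exponent with `A = B₀ ∘ g₁ ^ e`
   on `φ(M)`.  Put `j = j₀ ∘ g₁`: `Compat (resAbs M (cAbs v ∘ j)) w`.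
2. `hlt v j` gives `Q`.  `L3`: `y₁, y₂ ∈ Ω` with `cAbs (j y₁ - Q.X) < 1`, `cAbs (j y₂ - Q.Y) < 1`.  Let `N ⊆ Ω` be the
   normal closure over `K` of `φ(M)(y₁, y₂)`: finite, stable; as a number field it is Galois over `K` and
   over `M`.  `wN`: the prime of `N` compatible with `cAbs v ∘ j` (`exists_compat`, with the residue
   characteristic); `dn M wN = w` (`compat_unique`).
3. `L2`: `h ∈ Gal(N / K)` in the inertia group of `wN` which restricts to `g`; extend it to `t' : Ω ≃ₐ[K] Ω`.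
   `cAbs v (j (t' x)) = cAbs v (j x)` for `x ∈ N`: `cAbs v ∘ j ∘ h` is again compatible with `wN`
   (`InI.gv_eq`), so it is a power of `cAbs v ∘ j` (`exists_rpow_of_compat`) with exponent `1` (compare at a
   natural number).  And `cAbs v (j (t' x) - j x) < 1` for `x ∈ N` with `cAbs v (j x) ≤ 1` (write
   `x = b / c`, `b, c ∈ 𝓞 N`, `c ∉ wN`, or `InI.val_lt` and compatibility).
4. `L1`: `s` with `s (j x) = j (t' x)` for `x ∈ N`; `exists_restrict`: `t''` with `s ∘ j = j ∘ t''`; `t'' = t'` on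
   `N`.  `t'' ∈ Fkk`, `D t'' = D t` (`hfac`; both are `φ ∘ g` on `φ(M)`).
5. `hlt`: `ptMap j (D t) = s Q - Q`, killed by `a` (for the algebra `kk → Ω → ClV v`).  If `cAbs Q.X ≤ 1`:
   `s Q.X - Q.X = s (Q.X - j y₁) + (j (t' y₁) - j y₁) + (j y₁ - Q.X)`, all `< 1`.  `L4` (`cAbs v 3 = 1`,
   `cAbs v a = 1` since `3, a ∉ w`): `s Q = Q`, `D t = 0` (`ptMap_injective`).
-/

namespace Pool.Agent.helper77.PB

open NumberField IsDedekindDomain QuadraticAlgebra Pool.Agent.helper10.PT Pool.Agent.helper95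
open Pool.Agent.helper77.BSD Pool.Agent.helper77.Tow
open Pool.Agent.helper40.T3 (al dn)

section aux

open Pool.Agent.helper76.T3

variable {F : Type*} [Field F] [NumberField F]

/-- a compatible absolute value and the valuation -/
private lemma h44L5_val {A : AbsoluteValue F ℝ} (hA : IsNonarchimedean A)
    {v : HeightOneSpectrum (𝓞 F)} (hc : Compat A v) (x : F) :
    (A x < 1 ↔ v.valuation F x < 1) ∧ (A x ≤ 1 ↔ v.valuation F x ≤ 1) := by
  by_cases hx : x = 0
  · subst hx
    simp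
  obtain ⟨c, hc0, hc1, h⟩ := abv_eq_zpow hA hc
  rw [h x hx, valuation_eq_exp_ordv v hx, ← WithZero.exp_zero, WithZero.exp_lt_exp,
    WithZero.exp_le_exp, zpow_lt_one_iff_right_of_lt_one₀ hc0 hc1,
    zpow_le_one_iff_right_of_lt_one₀ hc0 hc1]
  constructor <;> constructor <;> intro h <;> omega

/-- elements of the inertia group are isometries -/
private lemma h44L5_iso {A : AbsoluteValue F ℝ} (hA : IsNonarchimedean A)
    {v : HeightOneSpectrum (𝓞 F)} (hc : Compat A v) {l : ℕ} (hl0 : l ≠ 0) (hl : A (l : F) < 1)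
    {g : F ≃+* F} (hg : InI g v) (x : F) : A (g x) = A x := by
  let B : AbsoluteValue F ℝ := A.comp (f := (g : F →+* F)) g.injective
  have hB : ∀ y, B y = A (g y) := fun y => rfl
  have hBn : IsNonarchimedean B := by
    intro y z
    simp only [hB, map_add]
    exact hA _ _
  have hBc : Compat B v := by
    intro y
    have e : B (y : F) = A ((RingOfIntegers.mapRingEquiv g y : 𝓞 F) : F) := rfl
    rw [e, ← hc]
    constructor
    · intro h
      have h1 := v.asIdeal.add_mem (hg y) h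
      rwa [sub_add_cancel] at h1
    · intro h
      have h1 := v.asIdeal.sub_mem h (hg y)
      rwa [sub_sub_cancel] at h1
  obtain ⟨s, hs, h⟩ := exists_rpow_of_compat hBn hA hBc hc
  have h1 := h (l : F)
  rw [hB, map_natCast] at h1
  have hl1 : (l : F) ≠ 0 := Nat.cast_ne_zero.2 hl0
  have hl2 : 0 < A (l : F) := A.pos hl1
  have h2 : s = 1 := by
    have h3 : A (l : F) ^ (1 : ℝ) = A (l : F) ^ s := by rw [Real.rpow_one]; exact h1
    have h4 := congrArg Real.log h3
    rw [Real.log_rpow hl2, Real.log_rpow hl2] at h4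
    have h5 := mul_right_cancel₀ (Real.log_neg hl2 hl).ne h4
    exact h5.symm
  rw [← hB, h, h2, Real.rpow_one]

/-- elements of the inertia group are trivial modulo the maximal ideal -/
private lemma h44L5_lt {A : AbsoluteValue F ℝ} (hA : IsNonarchimedean A)
    {v : HeightOneSpectrum (𝓞 F)} (hc : Compat A v) {g : F ≃+* F} (hg : InI g v) {x : F}
    (hx : A x ≤ 1) : A (g x - x) < 1 :=
  (h44L5_val hA hc _).1.2 (hg.val_lt ((h44L5_val hA hc x).2.1 hx))

end aux

/-- an embedding of `Ω` which is compatible with `w` -/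
private lemma h44L5_emb {K M : Type} [Field K] [NumberField K] [Field M] [NumberField M]
    [Algebra K M] (φ : M →ₐ[K] AlgebraicClosure K) (w : HeightOneSpectrum (𝓞 M)) :
    ∃ j : AlgebraicClosure K →ₐ[K] ClV (dn K w),
      ∀ x : 𝓞 M, x ∈ w.asIdeal ↔ cAbs (dn K w) (j (φ (x : M))) < 1 := by
  classical
  let Ω := AlgebraicClosure K
  let v := dn K w
  -- an absolute value over `w`
  obtain ⟨A, hA, hAw⟩ : ∃ A : AbsoluteValue Ω ℝ, IsNonarchimedean A ∧
      ∀ x : 𝓞 M, x ∈ w.asIdeal ↔ A (φ (x : M)) < 1 := by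
    letI : Algebra M Ω := (φ : M →+* Ω).toAlgebra
    have hst : IsScalarTower K M Ω := IsScalarTower.of_algebraMap_eq fun x => (φ.commutes x).symm
    have halg : Algebra.IsAlgebraic M Ω := Algebra.IsAlgebraic.tower_top (K := K) M
    obtain ⟨A, hA, hAw⟩ := exists_abs_over (K := M) (Ω := Ω) w
    exact ⟨A, hA, fun x => hAw x⟩
  have hAv : Compat (resAbs K A) v := by
    intro x
    rw [resAbs_apply, helper40.T3.dn_asIdeal, Ideal.under_def, Ideal.mem_comap, hAw]
    have e : φ ((algebraMap (𝓞 K) (𝓞 M) x : 𝓞 M) : M) = algebraMap K Ω (x : K) :=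
      φ.commutes (x : K)
    rw [e]
  let j₀ : Ω →ₐ[K] ClV v := IsAlgClosed.lift
  let B₀ : AbsoluteValue Ω ℝ := (cAbs v).comp j₀.toRingHom.injective
  have hB₀ : ∀ x, B₀ x = cAbs v (j₀ x) := fun x => rfl
  have hB₀n : IsNonarchimedean B₀ := by
    intro x y
    simp only [hB₀, map_add]
    exact cAbs_nonarch v _ _
  have hB₀v : Compat (resAbs K B₀) v := by
    intro x
    rw [resAbs_apply, hB₀, AlgHom.commutes, IsScalarTower.algebraMap_apply K (v.adicCompletion K),
      cAbs_algebraMap, norm_coe_lt_one_iff]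
  have hfd : FiniteDimensional K M := Module.Finite.of_restrictScalars_finite ℚ K M
  let bM := Module.finBasis K M
  let S : Finset Ω := Finset.univ.image (fun i => φ (bM i))
  obtain ⟨g, e, he, hg⟩ := bridge hA hB₀n hAv hB₀v S
  have hS : ∀ x : M, φ x ∈ IntermediateField.adjoin K (S : Set Ω) := by
    intro x
    have h1 := bM.sum_repr x
    rw [← h1, map_sum]
    apply sum_mem
    intro i _
    rw [Algebra.smul_def, map_mul, AlgHom.commutes]
    apply mul_mem (IntermediateField.algebraMap_mem _ _)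
    apply IntermediateField.subset_adjoin
    simp only [S, Finset.coe_image, Finset.coe_univ, Set.image_univ]
    exact ⟨i, rfl⟩
  refine ⟨j₀.comp (g : Ω →ₐ[K] Ω), fun x => ?_⟩
  rw [hAw x, hg _ (hS _)]
  change cAbs v (j₀ (g (φ x))) ^ e < 1 ↔ cAbs v (j₀ (g (φ x))) < 1
  exact Real.rpow_lt_one_iff' ((cAbs v).nonneg _) he

theorem local_inertia {K M : Type} [Field K] [NumberField K] [Field M] [NumberField M]
    [Algebra K M] [IsGalois K M] [Algebra kk M] [Algebra kk (AlgebraicClosure K)]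
    (φ : M →ₐ[K] AlgebraicClosure K)
    (hφ : ∀ x : kk, φ (algebraMap kk M x) = algebraMap kk (AlgebraicClosure K) x)
    {D : (AlgebraicClosure K ≃ₐ[K] AlgebraicClosure K) → Pt (AlgebraicClosure K)}
    (hlt : LTP (Fkk K (AlgebraicClosure K) : Set _) D)
    (hfac : ∀ s ∈ Fkk K (AlgebraicClosure K), ∀ t ∈ Fkk K (AlgebraicClosure K),
      (∀ x : M, s (φ x) = t (φ x)) → D s = D t)
    {a : EA} (hker : ∀ t ∈ Fkk K (AlgebraicClosure K), a • D t = 0)
    {w : HeightOneSpectrum (𝓞 M)} (h3 : (3 : 𝓞 M) ∉ w.asIdeal) (ha : aE M a ∉ w.asIdeal)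
    {g : M ≃ₐ[K] M} (hg : InI (g : M ≃+* M) w)
    {t : AlgebraicClosure K ≃ₐ[K] AlgebraicClosure K} (ht : t ∈ Fkk K (AlgebraicClosure K))
    (htg : ∀ x : M, t (φ x) = φ (g x)) : D t = 0 := by
  classical
  let Ω := AlgebraicClosure K
  let v := dn K w
  obtain ⟨j, hj⟩ := h44L5_emb φ w
  obtain ⟨Q, hQ⟩ := hlt v j
  obtain ⟨y₁, hy₁⟩ := exists_near v j Q.X one_pos
  obtain ⟨y₂, hy₂⟩ := exists_near v j Q.Y one_pos
  have hna := cAbs_nonarch v
  -- the field `N`
  have hfd : FiniteDimensional K M := Module.Finite.of_restrictScalars_finite ℚ K M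
  let bM := Module.finBasis K M
  let S : Finset Ω := insert y₁ (insert y₂ (Finset.univ.image (fun i => φ (bM i))))
  have hfin : FiniteDimensional K (IntermediateField.adjoin K (S : Set Ω)) :=
    IntermediateField.finiteDimensional_adjoin fun x _ => Algebra.IsIntegral.isIntegral x
  have hnΩ : Normal K Ω := normal_iff.mpr fun x =>
    ⟨Algebra.IsIntegral.isIntegral x, IsAlgClosed.splits _⟩
  let N : IntermediateField K Ω :=
    IntermediateField.normalClosure K (IntermediateField.adjoin K (S : Set Ω)) Ω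
  have hSN : IntermediateField.adjoin K (S : Set Ω) ≤ N := IntermediateField.le_normalClosure _
  have hNn : Normal K N := inferInstance
  have hNf : FiniteDimensional K N := inferInstance
  have hNg : IsGalois K N := ⟨⟩
  have hNnf : NumberField N := NumberField.of_module_finite K N
  have hstab : ∀ (σ : Ω ≃ₐ[K] Ω), ∀ x ∈ N, σ x ∈ N := by
    intro σ x hx
    have h1 := IntermediateField.normal_iff_forall_map_le'.1 hNn σ
    exact h1 ⟨x, hx, rfl⟩
  have hφN : ∀ x : M, φ x ∈ N := by
    intro x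
    apply hSN
    have h1 := bM.sum_repr x
    rw [← h1, map_sum]
    apply sum_mem
    intro i _
    rw [Algebra.smul_def, map_mul, AlgHom.commutes]
    apply mul_mem (IntermediateField.algebraMap_mem _ _)
    apply IntermediateField.subset_adjoin
    simp only [S, Finset.coe_insert, Finset.coe_image, Finset.coe_univ, Set.image_univ]
    right
    right
    exact ⟨i, rfl⟩
  have hy₁N : y₁ ∈ N := hSN (IntermediateField.subset_adjoin K _ (by simp [S]))
  have hy₂N : y₂ ∈ N := hSN (IntermediateField.subset_adjoin K _ (by simp [S]))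
  let φN : M →+* N := (φ : M →+* Ω).codRestrict N hφN
  letI : Algebra M N := φN.toAlgebra
  have hMN : ∀ x : M, ((algebraMap M N x : N) : Ω) = φ x := fun x => rfl
  have hst : IsScalarTower K M N := IsScalarTower.of_algebraMap_eq fun x => by
    apply Subtype.ext
    rw [hMN, AlgHom.commutes]
    rfl
  -- the absolute value on `N`
  let B : AbsoluteValue N ℝ := (cAbs v).comp (f := (j : Ω →+* ClV v).comp (algebraMap N Ω))
    ((j : Ω →+* ClV v).comp (algebraMap N Ω)).injective
  have hB : ∀ x : N, B x = cAbs v (j (x : Ω)) := fun x => rfl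
  have hBn : IsNonarchimedean B := by
    intro x y
    have e : ((x + y : N) : Ω) = (x : Ω) + (y : Ω) := rfl
    rw [hB, e, map_add]
    exact hna _ _
  obtain ⟨l, hl0, hl⟩ : ∃ l : ℕ, l ≠ 0 ∧ (l : 𝓞 M) ∈ w.asIdeal := by
    refine ⟨Ideal.absNorm w.asIdeal, ?_, Ideal.absNorm_mem _⟩
    rw [Ne, Ideal.absNorm_eq_zero_iff]
    exact w.ne_bot
  have hBl : B (l : N) < 1 := by
    have h1 := (hj (l : 𝓞 M)).1 hl
    have e0 : (((l : 𝓞 M) : 𝓞 M) : M) = (l : M) := map_natCast (algebraMap (𝓞 M) M) l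
    have e1 : (((l : N) : N) : Ω) = (l : Ω) := map_natCast (algebraMap N Ω) l
    have e : φ (((l : 𝓞 M) : 𝓞 M) : M) = (((l : N) : N) : Ω) := by
      rw [e0, e1, map_natCast]
    rw [hB, ← e]
    exact h1
  obtain ⟨wN, hwN⟩ := exists_compat (F := N) hBn l hl0 hBl
  have hdn : dn M wN = w := by
    apply HeightOneSpectrum.ext
    ext x
    rw [helper40.T3.dn_asIdeal, Ideal.under_def, Ideal.mem_comap, hwN, hj, hB]
    rfl
  -- the automorphism
  obtain ⟨h, hhI, hh⟩ := exists_lift_inertia (K := K) (M := M) (N := N) wN g (by rw [hdn]; exact hg)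
  let t' : Ω ≃ₐ[K] Ω := h.liftNormal Ω
  have ht' : ∀ x : N, t' (x : Ω) = ((h x : N) : Ω) := fun x =>
    AlgEquiv.liftNormal_commutes h Ω x
  have hiso : ∀ x ∈ N, cAbs v (j (t' x)) = cAbs v (j x) := by
    intro x hx
    have h1 := h44L5_iso hBn hwN hl0 hBl hhI ⟨x, hx⟩
    rw [hB, hB] at h1
    rw [ht' ⟨x, hx⟩]
    exact h1
  have hlt1 : ∀ x ∈ N, cAbs v (j x) ≤ 1 → cAbs v (j (t' x) - j x) < 1 := by
    intro x hx hx1
    have h1 := h44L5_lt hBn hwN hhI (x := ⟨x, hx⟩) hx1
    have e : ((h ⟨x, hx⟩ - ⟨x, hx⟩ : N) : Ω) = ((h ⟨x, hx⟩ : N) : Ω) - x := rfl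
    rw [← map_sub, ht' ⟨x, hx⟩, ← e]
    exact h1
  obtain ⟨s, hs⟩ := exists_lift_local v j N hstab t' hiso
  obtain ⟨t'', ht''⟩ := exists_restrict j s
  have ht2 : ∀ x ∈ N, t'' x = t' x := by
    intro x hx
    apply (j : Ω →+* ClV v).injective
    change j (t'' x) = j (t' x)
    rw [← ht'' x, hs x hx]
  have htφ : ∀ x : M, t'' (φ x) = t (φ x) := by
    intro x
    rw [ht2 _ (hφN x), htg, ← hMN, ht', hh, hMN]
  have ht2F : t'' ∈ Fkk K Ω := by
    intro x
    rw [← hφ, htφ, hφ]
    exact ht x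
  have hDD : D t'' = D t := hfac t'' ht2F t ht htφ
  have hq := hQ s t'' ht2F ht''
  -- the algebra structure
  letI : Algebra kk (ClV v) := ((j : Ω →+* ClV v).comp (algebraMap kk Ω)).toAlgebra
  let j' : Ω →ₐ[kk] ClV v := { (j : Ω →+* ClV v) with commutes' := fun x => rfl }
  have hj1 : ∀ x : 𝓞 M, x ∉ w.asIdeal → cAbs v (j (φ (x : M))) = 1 := by
    intro x hx
    apply le_antisymm
    · have h1 := abv_ringOfIntegers_le_one hBn (algebraMap (𝓞 M) (𝓞 N) x)
      rw [hB] at h1
      exact h1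
    · by_contra hcon
      push Not at hcon
      exact hx ((hj x).2 hcon)
  have h3' : cAbs v 3 = 1 := by
    have h1 := hj1 3 h3
    have e0 : (((3 : 𝓞 M) : 𝓞 M) : M) = 3 := map_ofNat (algebraMap (𝓞 M) M) 3
    have e : j (φ (((3 : 𝓞 M) : 𝓞 M) : M)) = 3 := by
      rw [e0, map_ofNat, map_ofNat]
    rw [e] at h1
    exact h1
  have ha' : cAbs v (eK (ClV v) a) = 1 := by
    have h1 := hj1 (aE M a) ha
    have e : φ ((aE M a : 𝓞 M) : M) = algebraMap kk Ω (ofE a) := by
      rw [← hφ]
      rfl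
    rw [e] at h1
    exact h1
  have hker' : a • (pa s Q - Q) = 0 := by
    rw [← hq, hDD]
    have h1 := ptMap_smul j' a (D t)
    have h2 : ((j' : Ω →ₐ[kk] ClV v) : Ω →+* ClV v) = (j : Ω →+* ClV v) := rfl
    rw [h2] at h1
    rw [← h1, hker t ht, map_zero]
  have hstep : ∀ (X : ClV v) (y : Ω), y ∈ N → cAbs v (j y - X) < 1 → cAbs v X ≤ 1 →
      cAbs v (s X - X) < 1 := by
    intro X y hy h1 h2
    have h3 : cAbs v (j y) ≤ 1 := by
      have := hna (j y - X) X
      rw [sub_add_cancel] at this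
      exact this.trans (max_le h1.le h2)
    have h4 := hlt1 y hy h3
    have h5 : s X - X = s (X - j y) + ((j (t' y) - j y) + (j y - X)) := by
      rw [map_sub, hs y hy]
      ring
    have h6 : cAbs v (s (X - j y)) < 1 := by
      rw [cAbs_equiv, AbsoluteValue.map_sub]
      exact h1
    rw [h5]
    exact (hna _ _).trans_lt (max_lt h6 ((hna _ _).trans_lt (max_lt h4 h1)))
  have hfix : pa s Q = Q := by
    refine fixed_ClV v h3' ha' s ?_ hker'
    intro hX
    have hY : cAbs v Q.Y ≤ 1 := by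
      by_cases hQ0 : Q = 0
      · rw [hQ0, Pt.Y_zero, (cAbs v).map_zero]
        exact zero_le_one
      · have h1 := Pt.eqn hQ0
        by_contra hcon
        push Not at hcon
        have h2 : cAbs v (Q.Y ^ 2 + Q.Y) = cAbs v (Q.Y ^ 2) := by
          rw [add_comm]
          apply abv_eq_of_lt hna
          rw [(cAbs v).map_pow]
          nlinarith
        rw [h1, (cAbs v).map_pow, (cAbs v).map_pow] at h2
        have h3 : cAbs v Q.X ^ 3 ≤ 1 := pow_le_one₀ ((cAbs v).nonneg _) hX
        nlinarith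
    exact ⟨hstep _ y₁ hy₁N hy₁ hX, hstep _ y₂ hy₂N hy₂ hY⟩
  rw [hfix, sub_self, hDD] at hq
  exact ptMap_injective (j : Ω →+* ClV v) (by rw [hq, map_zero])

end Pool.Agent.helper77.PB
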