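import Mathlib
import Pool.Agent.helper77.PB.L5
import Pool.Agent.helper77.PB.D2
import Pool.Agent.helper10.PT.D.Coc

set_option autoImplicit false

/-!
# PT-B-C1: locally trivial cocycles with values in `E[π]` are coboundaries

`K → L`, `L / kk` Galois of `p`-power degree and silent, `Ω = AlgebraicClosure K`, `ψ : L → Ω` over `K`, and `Ω`
gets its `kk`-structure from `ψ`.

The cochain factors through `Gal(M / K)` for a big Galois field `M` (`exists_bigM`), its values come from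
`M` (`c1_val`), the resulting cocycle of `fixG L M` vanishes on the inertia groups (`local_inertia`), so it
is a coboundary (`coc_trivial`); after subtraction the values are fixed by `fixG L M` and killed by `π`,
so they vanish (`tors_L`).
-/

namespace Pool.Agent.helper77.PB

open NumberField IsDedekindDomain QuadraticAlgebra Pool.Agent.helper10.PT
open Pool.Agent.helper77.BSD Pool.Agent.helper77.Tow

section values

variable {M Ω : Type} [Field M] [NumberField M] [Algebra kk M] [Field Ω] [CharZero Ω]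
  [Algebra kk Ω] [Algebra.IsAlgebraic kk Ω]

/-- the points killed by `π` come from `M` -/
lemma c1_val {p : ℕ} {π : EA} (hπ : IsPi p π) {T : Pt M} (hT0 : T ≠ 0) (hT : π • T = 0)
    (φ : M →ₐ[kk] Ω) {S : Pt Ω} (hS : π • S = 0) :
    ∃ R : Pt M, π • R = 0 ∧ ptMap (φ : M →+* Ω) R = S := by
  classical
  let σ : Ω →ₐ[kk] ℂ := IsAlgClosed.lift
  have h1 := isTor_image (K := M) hπ.prime hπ.norm hT0 hT
  have h2 := DistK.tor_map (σ.comp φ) hπ.prime_elt.1.ne_zero h1
  have h3 : π • ptMap (σ : Ω →+* ℂ) S = 0 := by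
    rw [← ptMap_smul σ π S, hS, map_zero]
  rw [← h2.mem, Finset.mem_map] at h3
  obtain ⟨R, hR, hR2⟩ := h3
  refine ⟨R, (h1.mem R).1 hR, ?_⟩
  apply ptMap_injective (σ : Ω →+* ℂ)
  rw [ptMap_ptMap, ← hR2]
  rfl

end values

section small

variable {K M Ω : Type} [Field K] [Field M] [CharZero M] [Field Ω] [CharZero Ω] [Algebra K Ω]
  [Algebra K M] [Algebra kk Ω] [Algebra kk M]

omit [Algebra kk Ω] in
lemma c1_pa_mul (s t : Ω ≃ₐ[K] Ω) (P : Pt Ω) : pa (s * t) P = pa s (pa t P) := by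
  unfold pa
  rw [ptMap_ptMap]
  rfl

lemma c1_pa_smul {t : Ω ≃ₐ[K] Ω} (ht : t ∈ Fkk K Ω) (a : EA) (P : Pt Ω) :
    pa t (a • P) = a • pa t P := by
  let t' : Ω →ₐ[kk] Ω := { ((t : Ω ≃+* Ω) : Ω →+* Ω) with commutes' := fun x => ht x }
  exact ptMap_smul t' a P

omit [Algebra kk Ω] in
lemma c1_pa_ptMap {t : Ω ≃ₐ[K] Ω} {φ : M →ₐ[K] Ω} {g : M ≃ₐ[kk] M}
    (h : ∀ x, t (φ x) = φ (g x)) (P : Pt M) :
    pa t (ptMap (φ : M →+* Ω) P) = ptMap (φ : M →+* Ω) (ptMap ((g : M ≃+* M) : M →+* M) P) := by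
  have e : ((t : Ω ≃+* Ω) : Ω →+* Ω).comp (φ : M →+* Ω) =
      (φ : M →+* Ω).comp ((g : M ≃+* M) : M →+* M) := RingHom.ext fun x => h x
  unfold pa
  rw [ptMap_ptMap, ptMap_ptMap, e]

end small

theorem core_pi {p : ℕ} {π : EA} {K L F : Type} [Field K] [NumberField K] [Field L]
    [NumberField L] [Field F] [NumberField F] [Algebra K L] [Algebra kk L] [Algebra kk F]
    [IsGalois kk L] (hL : ∃ m, Module.finrank kk L = p ^ m) (hs : SilentP p L)
    {ζ : F} {T : Pt F} (hB : IsBase p π ζ T) (hK : ThmK p π ζ T)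
    [Algebra kk (AlgebraicClosure K)] (ψ : L →ₐ[K] AlgebraicClosure K)
    (hψ : ∀ x : kk, ψ (algebraMap kk L x) = algebraMap kk (AlgebraicClosure K) x)
    {D : (AlgebraicClosure K ≃ₐ[K] AlgebraicClosure K) → Pt (AlgebraicClosure K)}
    (hD : CocP (Fkk K (AlgebraicClosure K)) D)
    (hker : ∀ t ∈ Fkk K (AlgebraicClosure K), π • D t = 0) :
    CobP (Fkk K (AlgebraicClosure K)) D := by
  classical
  obtain ⟨S, hS⟩ := hD.fin
  obtain ⟨M, i1, i2, i3, i4, i5, i6, i7, i8, i9, φ, hgal1, hgal2, hφL, hφk, hφS⟩ :=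
    exists_bigM (F := F) ψ hψ S
  -- `Ω` is algebraic over `kk`
  have halgQ : Algebra.IsAlgebraic ℚ (AlgebraicClosure K) := Algebra.IsAlgebraic.trans ℚ K _
  have halg : Algebra.IsAlgebraic kk (AlgebraicClosure K) :=
    Algebra.IsAlgebraic.tower_top (K := ℚ) (L := kk) (A := AlgebraicClosure K)
  let φk : M →ₐ[kk] AlgebraicClosure K := { (φ : M →+* AlgebraicClosure K) with
    commutes' := hφk }
  -- `D` factors through the restriction to `M`
  have hfac : ∀ s ∈ Fkk K (AlgebraicClosure K), ∀ t ∈ Fkk K (AlgebraicClosure K),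
      (∀ x : M, s (φ x) = t (φ x)) → D s = D t := by
    intro s hs' t ht h
    refine hS s hs' t ht fun x hx => ?_
    obtain ⟨y, rfl⟩ := hφS x hx
    exact h y
  -- restriction
  have hres : ∀ t ∈ Fkk K (AlgebraicClosure K), ∃ g : M ≃ₐ[kk] M, ∀ x, t (φ x) = φ (g x) := by
    let _ : Algebra M (AlgebraicClosure K) := φ.toRingHom.toAlgebra
    have : IsScalarTower K M (AlgebraicClosure K) :=
      IsScalarTower.of_algebraMap_eq fun x => (φ.commutes x).symm
    intro t ht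
    have h1 : ∀ x, t (φ x) = φ (t.restrictNormal M x) := fun x =>
      (AlgEquiv.restrictNormal_commutes t M x).symm
    refine ⟨AlgEquiv.ofRingEquiv (f := ((t.restrictNormal M : M ≃ₐ[K] M) : M ≃+* M)) fun x => ?_,
      h1⟩
    apply φ.toRingHom.injective
    change φ (t.restrictNormal M (algebraMap kk M x)) = φ (algebraMap kk M x)
    rw [← h1, hφk, ht x]
  -- lifting
  have hlift : ∀ g ∈ fixG L M, ∃ gK : M ≃ₐ[K] M, (∀ x, gK x = g x) ∧
      ∃ t ∈ Fkk K (AlgebraicClosure K), ∀ x, t (φ x) = φ (gK x) := by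
    let _ : Algebra M (AlgebraicClosure K) := φ.toRingHom.toAlgebra
    have : IsScalarTower K M (AlgebraicClosure K) :=
      IsScalarTower.of_algebraMap_eq fun x => (φ.commutes x).symm
    have hAlgM : Algebra.IsAlgebraic M (AlgebraicClosure K) :=
      Algebra.IsAlgebraic.tower_top (K := K) M
    intro g hg
    let gK : M ≃ₐ[K] M := AlgEquiv.ofRingEquiv (f := (g : M ≃+* M)) fun x => by
      rw [IsScalarTower.algebraMap_apply K L M]
      exact hg _
    have hgK : ∀ x, gK x = g x := fun _ => rfl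
    have h1 : ∀ x, gK.liftNormal (AlgebraicClosure K) (φ x) = φ (gK x) := fun x =>
      AlgEquiv.liftNormal_commutes gK (AlgebraicClosure K) x
    refine ⟨gK, hgK, gK.liftNormal (AlgebraicClosure K), fun x => ?_, h1⟩
    rw [← hφk, h1, hgK, g.commutes]
  -- the point `T` in `M`
  set TM : Pt M := ptMap (algebraMap F M) T with hTM
  have hTM0 : TM ≠ 0 := ptMap_ne_zero _ hB.ne_zero
  have hTM1 : π • TM = 0 := by
    rw [hTM, ← ptMap_smul_tower, hB.tors, map_zero]
  have hval : ∀ {Q : Pt (AlgebraicClosure K)}, π • Q = 0 →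
      ∃ R : Pt M, π • R = 0 ∧ ptMap (φ : M →+* AlgebraicClosure K) R = Q := fun hQ =>
    c1_val hB.pi hTM0 hTM1 φk hQ
  -- the cocycle on `M`
  have hex : ∀ g : M ≃ₐ[kk] M, ∃ cg : Pt M, g ∈ fixG L M → (π • cg = 0 ∧
      ∀ t ∈ Fkk K (AlgebraicClosure K), (∀ x, t (φ x) = φ (g x)) →
        ptMap (φ : M →+* AlgebraicClosure K) cg = D t) := by
    intro g
    by_cases hg : g ∈ fixG L M
    · obtain ⟨gK, hgK, t, ht, htg⟩ := hlift g hg
      obtain ⟨R, hR, hR2⟩ := hval (hker t ht)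
      refine ⟨R, fun _ => ⟨hR, fun t' ht' htg' => ?_⟩⟩
      rw [hR2]
      refine hfac t ht t' ht' fun x => ?_
      rw [htg, htg', hgK]
    · exact ⟨0, fun h => absurd h hg⟩
  choose c hc using hex
  have hinj := ptMap_injective (φ : M →+* AlgebraicClosure K)
  have hmulφ : ∀ {s t : AlgebraicClosure K ≃ₐ[K] AlgebraicClosure K} {g h : M ≃ₐ[kk] M},
      (∀ x, s (φ x) = φ (g x)) → (∀ x, t (φ x) = φ (h x)) →
      ∀ x, (s * t) (φ x) = φ ((g * h) x) := by
    intro s t g h hs1 ht1 x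
    rw [AlgEquiv.mul_apply, AlgEquiv.mul_apply, ht1, hs1]
  have hccoc : ∀ g ∈ fixG L M, ∀ h ∈ fixG L M, c (g * h) = c g + g • c h := by
    intro g hg h hh
    obtain ⟨gK, hgK, s, hs1, hs2⟩ := hlift g hg
    obtain ⟨hK', hhK, t, ht1, ht2⟩ := hlift h hh
    simp only [hgK] at hs2
    simp only [hhK] at ht2
    apply hinj
    rw [map_add, (hc (g * h) (mul_mem hg hh)).2 (s * t) (mul_mem hs1 ht1) (hmulφ hs2 ht2),
      (hc g hg).2 s hs1 hs2, hD.coc s hs1 t ht1, ← (hc h hh).2 t ht1 ht2, c1_pa_ptMap hs2]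
    rfl
  have hcI : ∀ g ∈ fixG L M, ∀ w : HeightOneSpectrum (𝓞 M), (3 : 𝓞 M) ∉ w.asIdeal →
      aE M π ∉ w.asIdeal → InI (g : M ≃+* M) w → c g = 0 := by
    intro g hg w h3 hw hI
    obtain ⟨gK, hgK, t, ht1, ht2⟩ := hlift g hg
    have hI' : InI (gK : M ≃+* M) w := by
      have e : (gK : M ≃+* M) = (g : M ≃+* M) := RingEquiv.ext hgK
      rw [e]
      exact hI
    have h0 := local_inertia φ hφk hD.lt hfac hker h3 hw hI' ht1 ht2
    apply hinj
    simp only [hgK] at ht2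
    rw [map_zero, (hc g hg).2 t ht1 ht2, h0]
  obtain ⟨S₀, hS₀, hcS⟩ := coc_trivial hL hs hB hK c (fun g hg => (hc g hg).1) hccoc hcI
  -- the coboundary
  set R : Pt (AlgebraicClosure K) := ptMap (φ : M →+* AlgebraicClosure K) S₀ with hR
  have hRπ : π • R = 0 := by
    have : ptMap (φ : M →+* AlgebraicClosure K) (π • S₀) = π • R := ptMap_smul φk π S₀
    rw [← this, hS₀, map_zero]
  have hDfix : ∀ t ∈ Fkk K (AlgebraicClosure K), ∀ g ∈ fixG L M, (∀ x, t (φ x) = φ (g x)) →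
      D t = pa t R - R := by
    intro t ht g hg htg
    rw [← (hc g hg).2 t ht htg, hcS g hg, map_sub, hR, c1_pa_ptMap htg]
    rfl
  have hnorm : (fixG L M).Normal := fixG_normal
  refine ⟨R, fun t ht => ?_⟩
  obtain ⟨R', hR'1, hR'2⟩ := hval (Q := D t - (pa t R - R)) (by
    rw [smul_sub, smul_sub, hker t ht, ← c1_pa_smul ht, hRπ, map_zero, sub_zero, sub_zero])
  obtain ⟨h, hh⟩ := hres t ht
  have hfix : ∀ g ∈ fixG L M, g • R' = R' := by
    intro g hg
    obtain ⟨gK, hgK, τ, hτ1, hτ2⟩ := hlift g hg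
    simp only [hgK] at hτ2
    set τ' : AlgebraicClosure K ≃ₐ[K] AlgebraicClosure K := t⁻¹ * (τ * t) with hτ'
    have hτ'1 : τ' ∈ Fkk K (AlgebraicClosure K) := mul_mem (inv_mem ht) (mul_mem hτ1 ht)
    have hcomm : t * τ' = τ * t := by rw [hτ', mul_inv_cancel_left]
    have hg' : h⁻¹ * (g * h) ∈ fixG L M := by
      have := hnorm.conj_mem g hg h⁻¹
      rwa [inv_inv, mul_assoc] at this
    have hτ'2 : ∀ x, τ' (φ x) = φ ((h⁻¹ * (g * h)) x) := by
      intro x
      apply t.injective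
      rw [← AlgEquiv.mul_apply t τ', hcomm, hmulφ hτ2 hh, hh, ← AlgEquiv.mul_apply h,
        mul_inv_cancel_left]
    have e1 := hD.coc τ hτ1 t ht
    have e2 := hD.coc t ht τ' hτ'1
    rw [hcomm] at e2
    rw [hDfix τ hτ1 g hg hτ2] at e1
    rw [hDfix τ' hτ'1 _ hg' hτ'2] at e2
    have e3 : pa τ (pa t R) = pa t (pa τ' R) := by
      rw [← c1_pa_mul, ← c1_pa_mul, hcomm]
    apply hinj
    have e4 : ptMap (φ : M →+* AlgebraicClosure K) (g • R') =
        pa τ (ptMap (φ : M →+* AlgebraicClosure K) R') := (c1_pa_ptMap hτ2 R').symm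
    rw [e4, hR'2, map_sub, map_sub]
    rw [map_sub] at e2
    have e5 : pa τ (D t) = D t + (pa t (pa τ' R) - pa t R) - (pa τ R - R) := by
      rw [← e2, e1]
      abel
    rw [e5, e3]
    abel
  obtain ⟨P0, hP0⟩ := exists_pt_of_fixG (L := L) R' hfix
  have h1 : π • P0 = 0 := by
    apply ptMap_injective (algebraMap L M)
    rw [ptMap_smul_tower, hP0, hR'1, map_zero]
  have h2 := tors_L hB.pi hL P0 h1
  rw [← hP0, h2, map_zero, map_zero] at hR'2
  exact sub_eq_zero.1 hR'2.symm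

end Pool.Agent.helper77.PB
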