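import Mathlib
import Pool.Agent.helper10.PT.R.Fld

set_option autoImplicit false

/-!
# PT-B-D1: multiplication by `a` is surjective on the points over an algebraic closure

**Proof.**  `P = 0`: clear.  Choose an embedding `i : Ω →ₐ[kk] ℂ` (`IsAlgClosed.lift`; `Ω / kk` is algebraic).
Multiplication by `a` is surjective on `Pt ℂ` (uniformization: R/DistA.lean, R/DistB.lean, used in the proof
of `exists_big_field` in R/Fld.lean), so `a • Q' = ptMap i P`; the coordinates of `Q'` are algebraic over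
`kk` (R/Alg.lean), so they are in the image of `i` (algebraically closed), and `Q' = ptMap i Q`;
`ptMap_injective`, `ptMap_smul`.
-/

namespace Pool.Agent.helper77.PB

open NumberField QuadraticAlgebra Pool.Agent.helper10.PT
open Pool.Agent.helper77.BSD Pool.Agent.helper77.Tow

theorem smul_surj {Ω : Type} [Field Ω] [CharZero Ω] [IsAlgClosed Ω] [Algebra.IsAlgebraic ℚ Ω]
    [Algebra kk Ω] {a : EA} (ha : a ≠ 0) (P : Pt Ω) : ∃ Q : Pt Ω, a • Q = P := by
  have halg : Algebra.IsAlgebraic kk Ω := Algebra.IsAlgebraic.tower_top (K := ℚ) kk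
  let i : Ω →ₐ[kk] ℂ := IsAlgClosed.lift
  obtain ⟨Q', hQ'⟩ := exists_smul_eq ha (ptMap (i : Ω →+* ℂ) P)
  have hal : ∀ x : Ω, IsAlgebraic ℚ (i x) := fun x =>
    (Algebra.IsAlgebraic.isAlgebraic (R := ℚ) x).algHom ((i : Ω →+* ℂ).toRatAlgHom)
  obtain ⟨hX, hY⟩ := alg_of_smul ha (Q := Q') (by rw [hQ', ptMap_X]; exact hal _)
    (by rw [hQ', ptMap_Y]; exact hal _)
  have hmem : ∀ z : ℂ, IsAlgebraic ℚ z → ∃ x : Ω, i x = z := by
    intro z hz
    let _ : Algebra Ω ℂ := (i : Ω →+* ℂ).toAlgebra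
    have h1 : IsAlgebraic Ω z := hz.tower_top (K := ℚ) Ω
    have h2 := minpoly.irreducible h1.isIntegral
    have h3 := IsAlgClosed.degree_eq_one_of_irreducible Ω h2
    obtain ⟨x, hx⟩ := minpoly.mem_range_of_degree_eq_one Ω z h3
    exact ⟨x, hx⟩
  obtain ⟨Q, hQ⟩ : ∃ Q : Pt Ω, ptMap (i : Ω →+* ℂ) Q = Q' := by
    by_cases h0 : Q' = 0
    · exact ⟨0, by rw [map_zero, h0]⟩
    · obtain ⟨x, hx⟩ := hmem _ hX
      obtain ⟨y, hy⟩ := hmem _ hY
      have h := Pt.eqn h0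
      refine ⟨Pt.mk x y ?_, ?_⟩
      · apply i.toRingHom.injective
        change i (y ^ 2 + y) = i (x ^ 3)
        rw [map_add, map_pow, map_pow, hx, hy]
        exact h
      · refine Pt.ext (ptMap_ne_zero _ (Pt.mk_ne_zero _)) h0 ?_ ?_
        · rw [ptMap_X, Pt.X_mk]; exact hx
        · rw [ptMap_Y, Pt.Y_mk]; exact hy
  refine ⟨Q, ?_⟩
  apply ptMap_injective (i : Ω →+* ℂ)
  rw [ptMap_smul, hQ, hQ']

end Pool.Agent.helper77.PB
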