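import Mathlib
import Pool.Agent.helper77.PB.Defs
import Pool.Agent.helper77.PB.D1

set_option autoImplicit false

/-!
# PT-B-C2: cocycles killed by a power of `a b`

**Proof.**  `Ω = AlgebraicClosure K`, `G = Fkk K Ω`.
*Multiples:* `CocP G D → CocP G (c • D)` for `c : EA`: `coc` and `fin` are clear (`pa t` commutes with `c` for
`t ∈ G`: `ptMap_smul` with `t` as a `kk`-automorphism).  `lt`: given `v, j` use the algebra structure
`kk → Ω → ClV v` given by `j`, and `c • Q`: if `s ∘ j = j ∘ t`, `t ∈ G`, then `s` fixes `kk ⊆ ClV v`, so `pa s` and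
`ptMap j` commute with `c`.
*Coboundaries:* for `R : Pt Ω`, `D' t = D t - (pa t R - R)` is again `CocP` (`fin`: the set `{R.X, R.Y}`; `lt`: `Q - ptMap j R`;
see `coboundary_cocycle`, `smooth_coboundary`, `LT_coboundary` in helper95/Shat.lean).
*One step* (`Core a` → if `CobP (a • D)` then `CobP D`): `a • D t = pa t P - P`, `P = a • R` (`smul_surj`), `D'` as
above is killed by `a`, so `CobP D'`, `CobP D`.
*Induction* on `m`: `(a b) ^ (m + 1) • D = a • (b • ((a b) ^ m • D))`; two steps show that `(a b) ^ m • D` is a coboundary.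
-/

namespace Pool.Agent.helper77.PB

open NumberField IsDedekindDomain QuadraticAlgebra Pool.Agent.helper10.PT
open Pool.Agent.helper77.BSD Pool.Agent.helper77.Tow

namespace C2

section

variable {K Ω : Type} [Field K] [Field Ω] [CharZero Ω] [Algebra K Ω]

lemma pa_mul (s t : Ω ≃ₐ[K] Ω) (P : Pt Ω) : pa (s * t) P = pa s (pa t P) := by
  change ptMap _ P = ptMap _ (ptMap _ P)
  rw [ptMap_ptMap]
  rfl

lemma pa_X (t : Ω ≃ₐ[K] Ω) (P : Pt Ω) : (pa t P).X = t P.X := ptMap_X _ P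

lemma pa_Y (t : Ω ≃ₐ[K] Ω) (P : Pt Ω) : (pa t P).Y = t P.Y := ptMap_Y _ P

lemma pa_ne_zero (t : Ω ≃ₐ[K] Ω) {P : Pt Ω} (hP : P ≠ 0) : pa t P ≠ 0 := ptMap_ne_zero _ hP

lemma pa_smooth (R : Pt Ω) : ∃ S : Finset Ω, ∀ s t : Ω ≃ₐ[K] Ω, (∀ x ∈ S, s x = t x) →
    pa s R = pa t R := by
  classical
  refine ⟨{R.X, R.Y}, fun s t h => ?_⟩
  by_cases hR : R = 0
  · rw [hR, map_zero, map_zero]
  · refine Pt.ext (pa_ne_zero s hR) (pa_ne_zero t hR) ?_ ?_
    · rw [pa_X, pa_X]
      exact h _ (by simp)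
    · rw [pa_Y, pa_Y]
      exact h _ (by simp)

variable [Algebra kk Ω]

lemma pa_smul {t : Ω ≃ₐ[K] Ω} (ht : ∀ x : kk, t (algebraMap kk Ω x) = algebraMap kk Ω x) (a : EA)
    (P : Pt Ω) : pa t (a • P) = a • pa t P := by
  let σ : Ω →ₐ[kk] Ω := { toRingHom := ((t : Ω ≃+* Ω) : Ω →+* Ω), commutes' := ht }
  exact ptMap_smul σ a P

end

section

variable {K Ω : Type} [Field K] [NumberField K] [Field Ω] [CharZero Ω] [Algebra K Ω]
  [Algebra kk Ω] {D : (Ω ≃ₐ[K] Ω) → Pt Ω}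

lemma ltp_smul (a : EA) (h : LTP (Fkk K Ω : Set (Ω ≃ₐ[K] Ω)) D) :
    LTP (Fkk K Ω : Set (Ω ≃ₐ[K] Ω)) fun t => a • D t := by
  intro v j
  obtain ⟨Q, hQ⟩ := h v j
  let i : Algebra kk (ClV v) := ((j : Ω →+* ClV v).comp (algebraMap kk Ω)).toAlgebra
  let j' : Ω →ₐ[kk] ClV v := { toRingHom := (j : Ω →+* ClV v), commutes' := fun _ => rfl }
  refine ⟨a • Q, fun s t ht hst => ?_⟩
  have hs : ∀ x : kk, s (algebraMap kk (ClV v) x) = algebraMap kk (ClV v) x := by
    intro x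
    change s (j (algebraMap kk Ω x)) = j (algebraMap kk Ω x)
    rw [hst, ht x]
  have h1 : ptMap (j : Ω →+* ClV v) (a • D t) = a • ptMap (j : Ω →+* ClV v) (D t) :=
    ptMap_smul j' a (D t)
  have h2 : pa s (a • Q) = a • pa s Q := pa_smul hs a Q
  rw [h1, hQ s t ht hst, h2, smul_sub]

lemma cocP_smul (a : EA) (h : CocP (Fkk K Ω) D) : CocP (Fkk K Ω) fun t => a • D t where
  coc s hs t ht := by
    change a • D (s * t) = a • D s + pa s (a • D t)
    rw [h.coc s hs t ht, smul_add, pa_smul hs]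
  fin := by
    obtain ⟨S, hS⟩ := h.fin
    refine ⟨S, fun s hs t ht hst => ?_⟩
    change a • D s = a • D t
    rw [hS s hs t ht hst]
  lt := ltp_smul a h.lt

lemma ltp_sub (R : Pt Ω) (h : LTP (Fkk K Ω : Set (Ω ≃ₐ[K] Ω)) D) :
    LTP (Fkk K Ω : Set (Ω ≃ₐ[K] Ω)) fun t => D t - (pa t R - R) := by
  intro v j
  obtain ⟨Q, hQ⟩ := h v j
  refine ⟨Q - ptMap (j : Ω →+* ClV v) R, fun s t ht hst => ?_⟩
  have h1 : ptMap (j : Ω →+* ClV v) (pa t R) = pa s (ptMap (j : Ω →+* ClV v) R) := by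
    by_cases hR : R = 0
    · rw [hR, map_zero, map_zero, map_zero]
    · refine Pt.ext (ptMap_ne_zero _ (pa_ne_zero t hR)) (pa_ne_zero s (ptMap_ne_zero _ hR)) ?_ ?_
      · rw [ptMap_X, pa_X, pa_X, ptMap_X]
        exact (hst _).symm
      · rw [ptMap_Y, pa_Y, pa_Y, ptMap_Y]
        exact (hst _).symm
  rw [map_sub, map_sub, hQ s t ht hst, h1, map_sub]
  abel

lemma cocP_sub (R : Pt Ω) (h : CocP (Fkk K Ω) D) :
    CocP (Fkk K Ω) fun t => D t - (pa t R - R) where
  coc s hs t ht := by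
    rw [h.coc s hs t ht, pa_mul, map_sub, map_sub]
    abel
  fin := by
    classical
    obtain ⟨S, hS⟩ := h.fin
    obtain ⟨S', hS'⟩ := pa_smooth (K := K) R
    refine ⟨S ∪ S', fun s hs t ht hst => ?_⟩
    change D s - (pa s R - R) = D t - (pa t R - R)
    rw [hS s hs t ht fun x hx => hst x (Finset.mem_union_left _ hx),
      hS' s t fun x hx => hst x (Finset.mem_union_right _ hx)]
  lt := ltp_sub R h.lt

end

end C2

/-- locally trivial cocycles killed by `a` are coboundaries -/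
def Core (K : Type) [Field K] [NumberField K] [Algebra kk (AlgebraicClosure K)] (a : EA) : Prop :=
  ∀ D : (AlgebraicClosure K ≃ₐ[K] AlgebraicClosure K) → Pt (AlgebraicClosure K),
    CocP (Fkk K (AlgebraicClosure K)) D →
    (∀ t ∈ Fkk K (AlgebraicClosure K), a • D t = 0) → CobP (Fkk K (AlgebraicClosure K)) D

lemma C2.step {K : Type} [Field K] [NumberField K] [Algebra kk (AlgebraicClosure K)]
    {a : EA} (ha : a ≠ 0) (h1 : Core K a)
    {D : (AlgebraicClosure K ≃ₐ[K] AlgebraicClosure K) → Pt (AlgebraicClosure K)}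
    (hD : CocP (Fkk K (AlgebraicClosure K)) D)
    (hm : CobP (Fkk K (AlgebraicClosure K)) fun t => a • D t) :
    CobP (Fkk K (AlgebraicClosure K)) D := by
  have hK : Algebra.IsAlgebraic ℚ K := inferInstance
  have hΩ : Algebra.IsAlgebraic ℚ (AlgebraicClosure K) :=
    Algebra.IsAlgebraic.trans ℚ K (AlgebraicClosure K)
  obtain ⟨P, hP⟩ := hm
  obtain ⟨R, hR⟩ := smul_surj ha P
  obtain ⟨m, hm⟩ := h1 (fun t => D t - (pa t R - R)) (C2.cocP_sub R hD) (by
    intro t ht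
    have h := hP t ht
    change a • (D t - (pa t R - R)) = 0
    rw [smul_sub, smul_sub, ← C2.pa_smul ht, hR]
    change a • D t = _ at h
    rw [h, sub_self])
  refine ⟨m + R, fun t ht => ?_⟩
  have h := hm t ht
  change D t - (pa t R - R) = _ at h
  rw [map_add, sub_eq_iff_eq_add.1 h]
  abel

theorem cob_of_core {K : Type} [Field K] [NumberField K] [Algebra kk (AlgebraicClosure K)]
    {a b : EA} (ha : a ≠ 0) (hb : b ≠ 0) (h1 : Core K a) (h2 : Core K b)
    {D : (AlgebraicClosure K ≃ₐ[K] AlgebraicClosure K) → Pt (AlgebraicClosure K)}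
    (hD : CocP (Fkk K (AlgebraicClosure K)) D) (m : ℕ)
    (hm : CobP (Fkk K (AlgebraicClosure K)) fun t => (a * b) ^ m • D t) :
    CobP (Fkk K (AlgebraicClosure K)) D := by
  induction m with
  | zero =>
    obtain ⟨P, hP⟩ := hm
    refine ⟨P, fun t ht => ?_⟩
    have h : (a * b) ^ 0 • D t = pa t P - P := hP t ht
    rw [pow_zero, one_smul] at h
    exact h
  | succ m ih =>
    apply ih
    apply C2.step hb h2 (C2.cocP_smul _ hD)
    apply C2.step ha h1 (C2.cocP_smul _ (C2.cocP_smul _ hD))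
    obtain ⟨P, hP⟩ := hm
    refine ⟨P, fun t ht => ?_⟩
    have h : (a * b) ^ (m + 1) • D t = pa t P - P := hP t ht
    change a • b • (a * b) ^ m • D t = pa t P - P
    rw [← h, smul_smul, smul_smul]
    congr 1
    ring

end Pool.Agent.helper77.PB
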