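import Mathlib
import Pool.Agent.helper77.PB.Defs

set_option autoImplicit false

/-!
# PT-B-C3: from the automorphisms which fix `ℚ(ω)` to all automorphisms

**Proof.**  `G = Fkk K Ω`.  `h1`: `C t = pa t P - P` for `t ∈ G`.  Put `C₁ t = C t - (pa t P - P)`, a cocycle, zero on
`G`.  `G` has index at most two and is normal: an automorphism `t` maps `w = algebraMap kk Ω wkk`
(`wkk = ω`) to a root of `X ^ 2 + X + 1`, that is to `w` or `w ^ 2`, and `t ∈ G` iff `t w = w`.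
If all `t` are in `G` we are done.  Otherwise let `s ∉ G`, `X = C₁ s`.  For `t ∈ G`: `C₁ (s t) = X`, and
`C₁ (t s) = pa t X`, `t s = s t'` with `t' = s⁻¹ t s ∈ G`, so `pa t X = X`.  `s ^ 2 ∈ G`: `0 = C₁ (s s) = X + pa s X`.
Every `u ∉ G` is `s t`, `t ∈ G`, so `C₁ u = X`, `pa u X = -X`, and `2 • C₁ u = 2 X = pa u (-X) - (-X)`; for `u ∈ G` both sides are
`0`.  So `2 • C₁`, and `2 • C`, is a coboundary.  `p ^ m • C` is a coboundary, and `1 = 2 x + p ^ m y`.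
-/

namespace Pool.Agent.helper77.PB

open NumberField QuadraticAlgebra Pool.Agent.helper10.PT
open Pool.Agent.helper77.BSD Pool.Agent.helper77.Tow

private theorem c3_alg {Ω : Type} [Field Ω] [CharZero Ω] [Algebra kk Ω] (x : kk) :
    algebraMap kk Ω x = (x.re : Ω) + (x.im : Ω) * algebraMap kk Ω ⟨0, 1⟩ := by
  have h1 : ∀ r : ℚ, algebraMap kk Ω (algebraMap ℚ kk r) = (r : Ω) := fun r => by
    rw [← RingHom.comp_apply]
    exact eq_ratCast _ r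
  have h2 : x = algebraMap ℚ kk x.re + algebraMap ℚ kk x.im * ⟨0, 1⟩ := by
    ext <;> simp
  rw [← h1, ← h1, ← map_mul, ← map_add, ← h2]

private theorem c3_root {Ω : Type} [Field Ω] [Algebra kk Ω] :
    algebraMap kk Ω ⟨0, 1⟩ * algebraMap kk Ω ⟨0, 1⟩ = -1 - algebraMap kk Ω ⟨0, 1⟩ := by
  rw [← map_mul, ← map_one (algebraMap kk Ω), ← map_neg, ← map_sub]
  congr 1
  ext <;> simp

section

variable {K Ω : Type} [Field K] [Field Ω] [CharZero Ω] [Algebra K Ω] [Algebra kk Ω]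

private theorem c3_mem (t : Ω ≃ₐ[K] Ω) :
    t ∈ Fkk K Ω ↔ t (algebraMap kk Ω ⟨0, 1⟩) = algebraMap kk Ω ⟨0, 1⟩ := by
  rw [mem_Fkk]
  constructor
  · exact fun h => h _
  · intro h x
    rw [c3_alg x, map_add, map_mul, h, map_ratCast, map_ratCast]

private theorem c3_not {t : Ω ≃ₐ[K] Ω} (ht : t ∉ Fkk K Ω) :
    t (algebraMap kk Ω ⟨0, 1⟩) = -1 - algebraMap kk Ω ⟨0, 1⟩ := by
  rw [c3_mem] at ht
  have h := congrArg t (c3_root (Ω := Ω))
  rw [map_mul, map_sub, map_neg, map_one] at h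
  have h2 : (t (algebraMap kk Ω ⟨0, 1⟩) - algebraMap kk Ω ⟨0, 1⟩) *
      (t (algebraMap kk Ω ⟨0, 1⟩) - (-1 - algebraMap kk Ω ⟨0, 1⟩)) = 0 := by
    linear_combination h - c3_root (Ω := Ω)
  rcases mul_eq_zero.1 h2 with h3 | h3
  · exact absurd (sub_eq_zero.1 h3) ht
  · exact sub_eq_zero.1 h3

private theorem c3_coset {s u : Ω ≃ₐ[K] Ω} (hs : s ∉ Fkk K Ω) (hu : u ∉ Fkk K Ω) :
    s⁻¹ * u ∈ Fkk K Ω := by
  rw [c3_mem, AlgEquiv.mul_apply, c3_not hu]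
  apply s.injective
  have : s (s⁻¹ (-1 - algebraMap kk Ω ⟨0, 1⟩)) = -1 - algebraMap kk Ω ⟨0, 1⟩ :=
    s.apply_symm_apply _
  rw [this, c3_not hs]

private theorem c3_sq {u : Ω ≃ₐ[K] Ω} (hu : u ∉ Fkk K Ω) : u * u ∈ Fkk K Ω := by
  rw [c3_mem, AlgEquiv.mul_apply, c3_not hu, map_sub, map_neg, map_one, c3_not hu]
  ring

omit [Algebra kk Ω] in
private theorem c3_pa_mul (s t : Ω ≃ₐ[K] Ω) (P : Pt Ω) : pa (s * t) P = pa s (pa t P) := by
  unfold pa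
  rw [ptMap_ptMap]
  rfl

end

theorem cob_full {K Ω : Type} [Field K] [Field Ω] [CharZero Ω] [Algebra K Ω] [Algebra kk Ω]
    {p : ℕ} (hp : Odd p) {C : (Ω ≃ₐ[K] Ω) → Pt Ω} (hC : ∀ s t, C (s * t) = C s + pa s (C t))
    (h1 : CobP (Fkk K Ω) C) (m : ℕ) (hm : ∃ P : Pt Ω, ∀ t, (p ^ m) • C t = pa t P - P) :
    ∃ P : Pt Ω, ∀ t, C t = pa t P - P := by
  obtain ⟨P0, hP0⟩ := h1
  obtain ⟨P1, hP1⟩ := hm
  by_cases hall : ∀ t : Ω ≃ₐ[K] Ω, t ∈ Fkk K Ω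
  · exact ⟨P0, fun t => hP0 t (hall t)⟩
  push Not at hall
  obtain ⟨s, hs⟩ := hall
  obtain ⟨C1, hC1⟩ : ∃ C1 : (Ω ≃ₐ[K] Ω) → Pt Ω, ∀ t, C1 t = C t - (pa t P0 - P0) :=
    ⟨_, fun _ => rfl⟩
  have hc : ∀ s t, C1 (s * t) = C1 s + pa s (C1 t) := by
    intro s t
    rw [hC1, hC1, hC1, hC, c3_pa_mul, map_sub, map_sub]
    abel
  have hz : ∀ t ∈ Fkk K Ω, C1 t = 0 := by
    intro t ht
    rw [hC1, hP0 t ht, sub_self]
  have hX : ∀ u, u ∉ Fkk K Ω → C1 u = C1 s := by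
    intro u hu
    have h2 : u = s * (s⁻¹ * u) := by rw [mul_inv_cancel_left]
    rw [h2, hc, hz _ (c3_coset hs hu), map_zero, add_zero]
  have hneg : ∀ u, u ∉ Fkk K Ω → pa u (C1 s) = -C1 s := by
    intro u hu
    have h2 := hc u u
    rw [hz _ (c3_sq hu), hX u hu] at h2
    exact (neg_eq_of_add_eq_zero_right h2.symm).symm
  have hpos : ∀ u, u ∈ Fkk K Ω → pa u (C1 s) = C1 s := by
    intro u hu
    have h2 : u * s ∉ Fkk K Ω := fun h => hs (((Fkk K Ω).mul_mem_cancel_left hu).1 h)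
    have h3 := hc u s
    rw [hX _ h2, hz u hu, zero_add] at h3
    exact h3.symm
  have h2 : ∀ u, (2 : ℕ) • C1 u = pa u (-C1 s) - (-C1 s) := by
    intro u
    rw [map_neg]
    by_cases hu : u ∈ Fkk K Ω
    · rw [hz u hu, hpos u hu, smul_zero, sub_self]
    · rw [hX u hu, hneg u hu, two_nsmul]
      abel
  have h3 : ∀ u, (2 : ℕ) • C u = pa u ((2 : ℕ) • P0 - C1 s) - ((2 : ℕ) • P0 - C1 s) := by
    intro u
    have h4 := h2 u
    rw [hC1 u, smul_sub, map_neg] at h4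
    rw [map_sub, map_nsmul, sub_eq_iff_eq_add.1 h4, smul_sub]
    abel
  obtain ⟨k, hk⟩ := hp.pow (n := m)
  refine ⟨P1 - k • ((2 : ℕ) • P0 - C1 s), fun t => ?_⟩
  have h5 : C t = (p ^ m) • C t - k • ((2 : ℕ) • C t) := by
    rw [hk, smul_smul, add_smul, one_smul, mul_comm 2 k]
    abel
  have h6 := h3 t
  generalize (2 : ℕ) • P0 - C1 s = R at h6 ⊢
  rw [h5, hP1 t, h6, map_sub, map_nsmul, smul_sub]
  abel

end Pool.Agent.helper77.PB
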