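import Mathlib
import Pool.Agent.helper77.PB.Defs

set_option autoImplicit false

/-!
# PT-B-C4: translation of `ShaPrimaryTrivial` for `y ^ 2 + y = x ^ 3`

**Proof.**  For a field `F` (characteristic zero) with `K → F` the curves
`((⟨0, 0, 1, 0, 0⟩ : WeierstrassCurve K).baseChange F)` and `Wz.baseChange F` (which defines `Pt F`) are equal (both
are `⟨0, 0, 1, 0, 0⟩`: `Wz_eq`, ext; simp), so there is an additive equivalence
`e F : ((⟨0, 0, 1, 0, 0⟩ : WeierstrassCurve K).baseChange F).toAffine.Point ≃+ Pt F` which keeps the coordinates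
(transport along the equality: generalize the curve and `subst`).  It is natural: for `f : F →ₐ[S] F'`
`e F' (Point.map (W' := W) f P) = ptMap f (e F P)` (zero; `Point.map_some` and coordinates, `Pt.ext`).  Given an
`IsShaCocycle W c` put `C t = e Ω (c t)`: cocycle; the finite set: `smooth_of_cocycle` in helper95/Shat.lean;
local triviality: `hc.finite v j` gives `Q`, use `e (ClV v) Q`.  `p ^ m • c` is a coboundary: same for `C`.  The
point `P` with `C t = pa t P - P` gives `(e Ω).symm P`.  (Compare helper95/Dr/Sha27.lean `sha_transfer`.)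
-/

open scoped Classical

namespace Pool.Agent.helper77.PB

open NumberField IsDedekindDomain QuadraticAlgebra Pool.Agent.helper10.PT Pool.Agent.helper95
open Pool.Agent.helper77.BSD Pool.Agent.helper77.Tow

namespace C4

/-- transport along an equality of curves -/
noncomputable def castPt {F : Type} [Field F] {W₁ W₂ : WeierstrassCurve F} (h : W₁ = W₂) :
    W₁.toAffine.Point ≃+ W₂.toAffine.Point := by
  subst h
  exact AddEquiv.refl _

lemma castPt_some {F : Type} [Field F] {W₁ W₂ : WeierstrassCurve F} (h : W₁ = W₂) (x y : F)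
    (hxy : W₁.toAffine.Nonsingular x y) (hxy' : W₂.toAffine.Nonsingular x y) :
    castPt h (WeierstrassCurve.Affine.Point.some x y hxy) =
      WeierstrassCurve.Affine.Point.some x y hxy' := by
  subst h
  rfl

section

variable {K : Type} [Field K]

/-- the curve -/
abbrev W0 (K : Type) [Field K] : WeierstrassCurve K := ⟨0, 0, 1, 0, 0⟩

lemma W0_eq (F : Type) [Field F] [Algebra K F] : (W0 K).baseChange F = Wz.baseChange F := by
  rw [Wz_eq]
  ext <;> simp [WeierstrassCurve.baseChange]

/-- the equivalence with `Pt` -/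
noncomputable def eq (F : Type) [Field F] [Algebra K F] :
    ((W0 K).baseChange F).toAffine.Point ≃+ Pt F := castPt (W0_eq (K := K) F)

lemma eq_some {F : Type} [Field F] [CharZero F] [Algebra K F] (x y : F)
    (hxy : ((W0 K).baseChange F).toAffine.Nonsingular x y) :
    ∃ h, eq (K := K) F (WeierstrassCurve.Affine.Point.some x y hxy) = Pt.mk x y h := by
  have h1 : (Wz.baseChange F).toAffine.Nonsingular x y := by
    rw [← W0_eq (K := K) F]; exact hxy
  exact ⟨(Wz_nonsing x y).1 h1, castPt_some (W0_eq (K := K) F) x y hxy h1⟩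

lemma eq_map {S : Type} [Field S] [Algebra K S] {F F' : Type} [Field F] [Field F'] [CharZero F]
    [CharZero F'] [Algebra K F] [Algebra K F'] [Algebra S F] [Algebra S F'] [IsScalarTower K S F]
    [IsScalarTower K S F'] (f : F →ₐ[S] F') (P : ((W0 K).baseChange F).toAffine.Point) :
    eq (K := K) F' (WeierstrassCurve.Affine.Point.map (W' := W0 K) (S := S) f P) =
      ptMap (f : F →+* F') (eq (K := K) F P) := by
  rcases P with _ | ⟨x, y, hxy⟩
  · have h1 : (WeierstrassCurve.Affine.Point.zero : ((W0 K).baseChange F).toAffine.Point) = 0 := rfl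
    rw [h1, map_zero, map_zero, map_zero, map_zero]
  · rw [WeierstrassCurve.Affine.Point.map_some]
    generalize_proofs h0
    obtain ⟨h1, e1⟩ := eq_some (K := K) x y hxy
    obtain ⟨h2, e2⟩ := eq_some (K := K) (f x) (f y) h0
    rw [e1]
    refine Eq.trans e2 ?_
    refine Pt.ext (Pt.mk_ne_zero _) (ptMap_ne_zero _ (Pt.mk_ne_zero _)) ?_ ?_
    · rw [ptMap_X, Pt.X_mk, Pt.X_mk]; rfl
    · rw [ptMap_Y, Pt.Y_mk, Pt.Y_mk]; rfl

end

end C4

theorem sha_of_pt {K : Type} [Field K] [NumberField K] {p : ℕ}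
    (h : ∀ C : (AlgebraicClosure K ≃ₐ[K] AlgebraicClosure K) → Pt (AlgebraicClosure K),
      (∀ s t, C (s * t) = C s + pa s (C t)) →
      (∃ S : Finset (AlgebraicClosure K), ∀ s t, (∀ x ∈ S, s x = t x) → C s = C t) →
      LTP Set.univ C → ∀ m : ℕ, (∃ P : Pt (AlgebraicClosure K), ∀ t, (p ^ m) • C t = pa t P - P) →
      ∃ P : Pt (AlgebraicClosure K), ∀ t, C t = pa t P - P) :
    ShaPrimaryTrivial (⟨0, 0, 1, 0, 0⟩ : WeierstrassCurve K) p := by
  intro c hc m hm
  have hact : ∀ (t : AlgebraicClosure K ≃ₐ[K] AlgebraicClosure K)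
      (P : ((C4.W0 K).baseChange (AlgebraicClosure K)).toAffine.Point),
      C4.eq (K := K) (AlgebraicClosure K) (galAct (C4.W0 K) K t P) =
        pa t (C4.eq (K := K) (AlgebraicClosure K) P) :=
    fun t P => C4.eq_map (AlgEquiv.toAlgHom t) P
  have hcoc : ∀ s t, c (s * t) = c s + galMap (C4.W0 K) s (c t) := hc.cocycle.cocycle
  have a1 : ∀ s t, C4.eq (K := K) (AlgebraicClosure K) (c (s * t)) =
      C4.eq (K := K) (AlgebraicClosure K) (c s) +
        pa s (C4.eq (K := K) (AlgebraicClosure K) (c t)) := by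
    intro s t
    refine Eq.trans (congrArg _ (hcoc s t)) ?_
    rw [map_add]
    congr 1
    exact hact s (c t)
  have a2 : ∃ S : Finset (AlgebraicClosure K), ∀ s t : AlgebraicClosure K ≃ₐ[K] AlgebraicClosure K,
      (∀ x ∈ S, s x = t x) → C4.eq (K := K) (AlgebraicClosure K) (c s) =
        C4.eq (K := K) (AlgebraicClosure K) (c t) := by
    obtain ⟨S, hS⟩ := smooth_of_cocycle c hcoc hc.cocycle.cont
    exact ⟨S, fun s t hst => congrArg _ (hS s t hst)⟩
  have a3 : LTP Set.univ (fun t => C4.eq (K := K) (AlgebraicClosure K) (c t)) := by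
    intro v j
    obtain ⟨Q, hQ⟩ := hc.finite v j
    refine ⟨C4.eq (K := K) (ClV v) Q, fun s t _ hst => ?_⟩
    have h1 := congrArg (C4.eq (K := K) (ClV v)) (hQ s t hst)
    rw [map_sub] at h1
    have h3 : C4.eq (K := K) (ClV v) (embMap (C4.W0 K) (v.adicCompletion K) j (c t)) =
        ptMap (j : AlgebraicClosure K →+* ClV v) (C4.eq (K := K) (AlgebraicClosure K) (c t)) :=
      C4.eq_map (S := K) j (c t)
    have h4 : C4.eq (K := K) (ClV v) (galAct (C4.W0 K) (v.adicCompletion K) s Q) =
        pa s (C4.eq (K := K) (ClV v) Q) :=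
      C4.eq_map (S := v.adicCompletion K) (AlgEquiv.toAlgHom s) Q
    rw [← h3, ← h4]
    exact h1
  have a4 : ∃ P : Pt (AlgebraicClosure K), ∀ t : AlgebraicClosure K ≃ₐ[K] AlgebraicClosure K,
      (p ^ m) • C4.eq (K := K) (AlgebraicClosure K) (c t) = pa t P - P := by
    obtain ⟨P, hP⟩ := hm
    refine ⟨C4.eq (K := K) (AlgebraicClosure K) P, fun t => ?_⟩
    have h1 := congrArg (C4.eq (K := K) (AlgebraicClosure K)) (hP t)
    rw [Pi.smul_apply, map_nsmul, map_sub] at h1
    refine h1.trans ?_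
    congr 1
    exact hact t P
  obtain ⟨Q, hQ⟩ := h (fun t => C4.eq (K := K) (AlgebraicClosure K) (c t)) a1 a2 a3 m a4
  refine ⟨(C4.eq (K := K) (AlgebraicClosure K)).symm Q, fun t => ?_⟩
  apply (C4.eq (K := K) (AlgebraicClosure K)).injective
  have h1 := hact t ((C4.eq (K := K) (AlgebraicClosure K)).symm Q)
  rw [AddEquiv.apply_symm_apply] at h1
  refine Eq.trans (hQ t) ?_
  rw [← h1, map_sub, AddEquiv.apply_symm_apply]

end Pool.Agent.helper77.PB
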