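import Mathlib
import Pool.Agent.helper10.PT.Fin.B
import Pool.Agent.helper50.PTV.E
import Pool.Agent.helper50.PTS.Sha

set_option autoImplicit false

/-!
# The `p`-part of the conjecture of Birch and Swinnerton-Dyer over silent `p`-towers
-/

open scoped Classical

namespace Pool.Agent.helper77.PB

open NumberField WeierstrassCurve IsDedekindDomain QuadraticAlgebra Pool.Agent.helper10.PT
open Pool.Agent.helper95 Pool.Agent.helper77.BSD Pool.Agent.helper77.Tow Pool.Agent.helper76.T3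

/-- the `p`-part over silent towers -/
theorem ppart {p : ℕ} (hp : p.Prime) (h1 : p % 3 = 1) {K L : Type} [Field K] [NumberField K]
    [Field L] [NumberField L] [Algebra kk L] [Algebra K L] [IsGalois kk L]
    (hL : ∃ m, Module.finrank kk L = p ^ m) (hs : SilentP p L) :
    (Finite (⟨0, 0, 1, 0, 0⟩ : WeierstrassCurve K).toAffine.Point ∧
      ¬ p ∣ Nat.card (⟨0, 0, 1, 0, 0⟩ : WeierstrassCurve K).toAffine.Point ∧
      ShaPrimaryTrivial (⟨0, 0, 1, 0, 0⟩ : WeierstrassCurve K) p) ∧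
    ∀ (C : ∀ v : HeightOneSpectrum (𝓞 K), VariableChange (v.adicCompletion K))
      (_ : ∀ v, IsMinimal (v.adicCompletionIntegers K)
        (C v • (⟨0, 0, 1, 0, 0⟩ : WeierstrassCurve K).baseChange (v.adicCompletion K))),
    (∀ v, ∃ H : AddSubgroup
        (C v • (⟨0, 0, 1, 0, 0⟩ : WeierstrassCurve K).baseChange
          (v.adicCompletion K)).toAffine.Point,
      (∀ P, P ∈ H ↔ helper95.Tow.NonsingularRed (v.adicCompletionIntegers K)
        (C v • (⟨0, 0, 1, 0, 0⟩ : WeierstrassCurve K).baseChange (v.adicCompletion K)) P) ∧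
      (H.index = 1 ∨ (3 : 𝓞 K) ∈ v.asIdeal ∧ H.index = 3)) ∧
    ∃ (U : Set ℂ) (G : ℂ → ℂ), IsOpen U ∧ IsConnected U ∧ {z : ℂ | (3 / 2 : ℝ) < z.re} ⊆ U ∧
      (1 : ℂ) ∈ U ∧ AnalyticOnNhd ℂ G U ∧
      (∀ z : ℂ, (3 / 2 : ℝ) < z.re → G z = (⟨0, 0, 1, 0, 0⟩ : WeierstrassCurve K).LSeries z) ∧
      G 1 ≠ 0 ∧ ∃ q : ℚ, padicValRat p q = 0 ∧ G 1 * √|(discr K : ℝ)| =
        q * (((∏ᶠ v, ‖((C v).u : v.adicCompletion K)‖⁻¹) *
          (2 * ∫ x in {x : ℝ | 0 < 4 * x ^ 3 + 1}, 1 / √(4 * x ^ 3 + 1)) ^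
            InfinitePlace.nrRealPlaces K *
          (8 * ∫ z : ℂ, 1 / ‖4 * z ^ 3 + 1‖) ^ InfinitePlace.nrComplexPlaces K : ℝ) : ℂ) := by
  refine ⟨⟨?_, ?_, Pool.Agent.helper50.PTS.sha_primary hp h1 thmK_all L hL hs⟩, fun C hC => ?_⟩
  · rw [← Wz_eq]
    exact (points_sub hp h1 L hL hs (algebraMap K L)).1
  · rw [card_pt_eq]
    exact (points_sub hp h1 L hL hs (algebraMap K L)).2
  · obtain ⟨h2, U, G, g1, g2, g3, g4, g5, g6, g7, q, hq1, hq2⟩ :=
      Pool.Agent.helper50.PTV.towers_p_value hp h1 (K := K) (L := L) hL hs C hC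
    have : Fact p.Prime := ⟨hp⟩
    have hp2 : p ≠ 2 := by
      rintro rfl
      omega
    have hv2 : padicValRat p (2 : ℚ) = 0 := by
      have h := padicValRat.of_nat (p := p) (n := 2)
      rw [padicValNat.eq_zero_of_not_dvd (fun h => hp2
        ((Nat.prime_dvd_prime_iff_eq hp Nat.prime_two).1 h))] at h
      exact_mod_cast h
    refine ⟨h2, U, G, g1, g2, g3, g4, g5, g6, g7, q / 2 ^ InfinitePlace.nrComplexPlaces K, ?_, ?_⟩
    · by_cases hq0 : q = 0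
      · rw [hq0, zero_div, padicValRat.zero]
      rw [padicValRat.div hq0 (by positivity), padicValRat.pow, hq1, hv2]
      simp
    · rw [hq2]
      have e : (8 * ∫ z : ℂ, 1 / ‖4 * z ^ 3 + 1‖) = 2 * (4 * ∫ z : ℂ, 1 / ‖4 * z ^ 3 + 1‖) := by
        ring
      have e2 : ∀ (a b A : ℝ) (n : ℕ), (q : ℂ) * ((a * b * A ^ n : ℝ) : ℂ) =
          ((q / 2 ^ n : ℚ) : ℂ) * ((a * b * (2 * A) ^ n : ℝ) : ℂ) := by
        intro a b A n
        have h0 : (2 : ℂ) ^ n ≠ 0 := pow_ne_zero _ two_ne_zero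
        push_cast
        rw [mul_pow]
        field_simp
      rw [e]
      exact e2 _ _ _ _

/-- the `p`-part over an abstract field `ℚ(√-3)` -/
theorem ppart_k {p : ℕ} (hp : p.Prime) (h1 : p % 3 = 1) {k : Type} [Field k] [NumberField k]
    {t : 𝓞 k} (ht : t ^ 2 = -3) (h2 : Module.finrank ℚ k = 2)
    {K L : Type} [Field K] [NumberField K] [Field L] [NumberField L] [Algebra k L]
    [IsGalois k L] (hL : ∃ m, Module.finrank k L = p ^ m)
    (hs : ∀ P : Ideal (𝓞 L), P.IsPrime → P ≠ ⊥ →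
      (P.comap (algebraMap (𝓞 k) (𝓞 L))).map (algebraMap (𝓞 k) (𝓞 L)) ≤ P ^ 2 →
      (p : 𝓞 L) ∉ P ∧ ¬ p ∣ 1 + Nat.card
        {z : (𝓞 L ⧸ P) × (𝓞 L ⧸ P) // z.2 ^ 2 + z.2 = z.1 ^ 3})
    (i : K →+* L) :
    (Finite (⟨0, 0, 1, 0, 0⟩ : WeierstrassCurve K).toAffine.Point ∧
      ¬ p ∣ Nat.card (⟨0, 0, 1, 0, 0⟩ : WeierstrassCurve K).toAffine.Point ∧
      ShaPrimaryTrivial (⟨0, 0, 1, 0, 0⟩ : WeierstrassCurve K) p) ∧
    ∀ (C : ∀ v : HeightOneSpectrum (𝓞 K), VariableChange (v.adicCompletion K))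
      (_ : ∀ v, IsMinimal (v.adicCompletionIntegers K)
        (C v • (⟨0, 0, 1, 0, 0⟩ : WeierstrassCurve K).baseChange (v.adicCompletion K))),
    (∀ v, ∃ H : AddSubgroup
        (C v • (⟨0, 0, 1, 0, 0⟩ : WeierstrassCurve K).baseChange
          (v.adicCompletion K)).toAffine.Point,
      (∀ P, P ∈ H ↔ helper95.Tow.NonsingularRed (v.adicCompletionIntegers K)
        (C v • (⟨0, 0, 1, 0, 0⟩ : WeierstrassCurve K).baseChange (v.adicCompletion K)) P) ∧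
      (H.index = 1 ∨ (3 : 𝓞 K) ∈ v.asIdeal ∧ H.index = 3)) ∧
    ∃ (U : Set ℂ) (G : ℂ → ℂ), IsOpen U ∧ IsConnected U ∧ {z : ℂ | (3 / 2 : ℝ) < z.re} ⊆ U ∧
      (1 : ℂ) ∈ U ∧ AnalyticOnNhd ℂ G U ∧
      (∀ z : ℂ, (3 / 2 : ℝ) < z.re → G z = (⟨0, 0, 1, 0, 0⟩ : WeierstrassCurve K).LSeries z) ∧
      G 1 ≠ 0 ∧ ∃ q : ℚ, padicValRat p q = 0 ∧ G 1 * √|(discr K : ℝ)| =
        q * (((∏ᶠ v, ‖((C v).u : v.adicCompletion K)‖⁻¹) *
          (2 * ∫ x in {x : ℝ | 0 < 4 * x ^ 3 + 1}, 1 / √(4 * x ^ 3 + 1)) ^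
            InfinitePlace.nrRealPlaces K *
          (8 * ∫ z : ℂ, 1 / ‖4 * z ^ 3 + 1‖) ^ InfinitePlace.nrComplexPlaces K : ℝ) : ℂ) := by
  let _ : Algebra K L := i.toAlgebra
  let _ : Algebra kk L := ((algebraMap k L).comp (ekP ht h2 : kk →+* k)).toAlgebra
  have hi : ∀ x, algebraMap kk L x = algebraMap k L (ekP ht h2 x) := fun x => rfl
  have i2 : IsGalois kk L :=
    IsGalois.of_equiv_equiv (F := k) (E := L) (f := (ekP ht h2).symm) (g := RingEquiv.refl L) (by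
      ext x
      change algebraMap k L (ekP ht h2 ((ekP ht h2).symm x)) = algebraMap k L x
      rw [RingEquiv.apply_symm_apply])
  have hd : Module.finrank kk L = Module.finrank k L :=
    Algebra.finrank_eq_of_equiv_equiv (ekP ht h2) (RingEquiv.refl L) (by
      ext x
      rfl)
  refine ppart hp h1 (K := K) (L := L) (by rw [hd]; exact hL) ?_
  intro P hP h0 hr
  refine hs P hP h0 ?_
  rw [RamP, comap_map_eqP ht h2 hi] at hr
  exact hr

end Pool.Agent.helper77.PB
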