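import Mathlib
import Pool.Agent.helper77.PB.C1
import Pool.Agent.helper77.PB.C2
import Pool.Agent.helper77.PB.C3
import Pool.Agent.helper77.PB.C4
import Pool.Agent.helper10.PT.D.Main

set_option autoImplicit false

/-!
# The `p`-primary part of the Tate-Shafarevich group over silent `p`-towers
-/

open scoped Classical

namespace Pool.Agent.helper77.PB

open NumberField IsDedekindDomain QuadraticAlgebra Pool.Agent.helper10.PT Pool.Agent.helper95
open Pool.Agent.helper77.BSD Pool.Agent.helper77.Tow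

theorem sha_silent {p : ℕ} (hp : p.Prime) (h1 : p % 3 = 1)
    (hK : ∀ (π : EA) (F : Type) [Field F] [NumberField F] [Algebra kk F] (ζ : F) (T : Pt F),
      IsBase p π ζ T → ThmK p π ζ T)
    (K L : Type) [Field K] [NumberField K] [Field L] [NumberField L] [Algebra K L] [Algebra kk L]
    [IsGalois kk L] (hL : ∃ m, Module.finrank kk L = p ^ m) (hs : SilentP p L) :
    ShaPrimaryTrivial (⟨0, 0, 1, 0, 0⟩ : WeierstrassCurve K) p := by
  let ψ : L →ₐ[K] AlgebraicClosure K := IsAlgClosed.lift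
  let _ : Algebra kk (AlgebraicClosure K) := ((ψ : L →+* _).comp (algebraMap kk L)).toAlgebra
  have hψ : ∀ x : kk, ψ (algebraMap kk L x) = algebraMap kk (AlgebraicClosure K) x := fun _ => rfl
  have hcore : ∀ π : EA, IsPi p π → Core K π := by
    intro π hπ D hD hker
    obtain ⟨F, i1, i2, i3, ζ, T, hB⟩ := exists_base hπ
    exact core_pi (L := L) hL hs hB (hK π F ζ T hB) ψ hψ hD hker
  obtain ⟨π, hπ⟩ := exists_isPi hp h1
  have hπ' := isPi_star hπ
  have hmul : π * star π = (p : EA) := hπ.prime_elt.2.2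
  have hπ0 : π ≠ 0 := hπ.prime_elt.1.ne_zero
  have hπ0' : star π ≠ 0 := hπ'.prime_elt.1.ne_zero
  have hodd : Odd p := by
    rcases hp.eq_two_or_odd' with h | h
    · subst h; omega
    · exact h
  refine sha_of_pt fun C hcoc hfin hlt m hm => ?_
  have hD : CocP (Fkk K (AlgebraicClosure K)) C := by
    refine ⟨fun s _ t _ => hcoc s t, ?_, fun v j => ?_⟩
    · obtain ⟨S, hS⟩ := hfin
      exact ⟨S, fun s _ t _ => hS s t⟩
    · obtain ⟨Q, hQ⟩ := hlt v j
      exact ⟨Q, fun s t _ => hQ s t (Set.mem_univ _)⟩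
  refine cob_full hodd hcoc (cob_of_core hπ0 hπ0' (hcore π hπ) (hcore _ hπ') hD m ?_) m hm
  obtain ⟨P, hP⟩ := hm
  refine ⟨P, fun t _ => ?_⟩
  have h2 : ((π * star π) ^ m) • C t = (p ^ m) • C t := by
    rw [hmul]
    have := natCast_smul' (K := AlgebraicClosure K) (n := p ^ m) (P := C t)
    rw [← this]
    push_cast
    rfl
  change ((π * star π) ^ m) • C t = _
  rw [h2, hP t]

end Pool.Agent.helper77.PB
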